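import Pool.Agent.H561R2.CF.Tree

/-!
# Labellings of the tree by vectors such that neighbours are orthogonal
-/

namespace Pool.Agent.H561R2.CF

open Finset

/-- Vectors over the field with two elements. -/
abbrev Vec (l : ℕ) : Type := Fin l → ZMod 2

/-- The sign of an element of the field with two elements. -/
def sgz (a : ZMod 2) : ℤ := if a = 0 then 1 else -1

theorem sgz_add (a b : ZMod 2) : sgz (a + b) = sgz a * sgz b := by
  have h : ∀ a b : ZMod 2, (a + b = 0 ↔ (a = 0 ↔ b = 0)) := by decide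
  unfold sgz
  by_cases ha : a = 0 <;> by_cases hb : b = 0 <;> simp [h a b, ha, hb]

theorem sum_sgz {l : ℕ} (a : Vec l) :
    ∑ b : Vec l, sgz (a ⬝ᵥ b) = if a = 0 then 2 ^ l else 0 := by
  split_ifs with h
  · subst h
    simp [sgz]
  · obtain ⟨i, hi⟩ : ∃ i, a i ≠ 0 := by
      by_contra hcon
      push Not at hcon
      exact h (funext hcon)
    have h1 : ∑ b : Vec l, sgz (a ⬝ᵥ b) = ∑ b : Vec l, sgz (a ⬝ᵥ (b + Pi.single i 1)) :=
      (Equiv.sum_comp (Equiv.addRight (Pi.single i (1 : ZMod 2) : Vec l))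
        fun b => sgz (a ⬝ᵥ b)).symm
    have h2 : ∀ b : Vec l, sgz (a ⬝ᵥ (b + Pi.single i 1)) = -sgz (a ⬝ᵥ b) := by
      intro b
      rw [dotProduct_add, dotProduct_single, mul_one, sgz_add]
      have : sgz (a i) = -1 := by unfold sgz; rw [if_neg hi]
      rw [this]
      ring
    rw [Finset.sum_congr rfl fun b _ => h2 b, Finset.sum_neg_distrib] at h1
    linarith

/-- Orthogonal sets are small. -/
theorem orth_card {l : ℕ} (P C : Finset (Vec l)) (h : ∀ p ∈ P, ∀ c ∈ C, p ⬝ᵥ c = 0) :
    P.card * C.card ≤ 2 ^ l := by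
  classical
  have h1 : ∑ b : Vec l, (∑ p ∈ P, sgz (p ⬝ᵥ b)) ^ 2 = P.card * 2 ^ l := by
    have e1 : ∀ b : Vec l, (∑ p ∈ P, sgz (p ⬝ᵥ b)) ^ 2 =
        ∑ p ∈ P, ∑ p' ∈ P, sgz ((p + p') ⬝ᵥ b) := by
      intro b
      rw [sq, Finset.sum_mul_sum]
      refine Finset.sum_congr rfl fun p _ => Finset.sum_congr rfl fun p' _ => ?_
      rw [add_dotProduct, sgz_add]
    rw [Finset.sum_congr rfl fun b _ => e1 b, Finset.sum_comm]
    rw [Finset.sum_congr rfl fun p _ => Finset.sum_comm]
    have e2 : ∀ p ∈ P, ∑ p' ∈ P, ∑ b : Vec l, sgz ((p + p') ⬝ᵥ b) = 2 ^ l := by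
      intro p hp
      rw [Finset.sum_congr rfl fun p' _ => sum_sgz (p + p')]
      rw [Finset.sum_eq_single p]
      · have : p + p = 0 := by
          funext i
          exact CharTwo.add_self_eq_zero _
        rw [if_pos this]
      · intro p' _ hne
        rw [if_neg]
        intro h0
        apply hne
        funext i
        have := congrFun h0 i
        simp only [Pi.add_apply, Pi.zero_apply] at this
        exact (CharTwo.add_eq_zero.1 this).symm
      · intro hn
        exact absurd hp hn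
    rw [Finset.sum_congr rfl e2, Finset.sum_const, nsmul_eq_mul]
  have h2 : (C.card : ℤ) * (P.card : ℤ) ^ 2 ≤ ∑ b : Vec l, (∑ p ∈ P, sgz (p ⬝ᵥ b)) ^ 2 := by
    calc (C.card : ℤ) * (P.card : ℤ) ^ 2 = ∑ b ∈ C, (∑ p ∈ P, sgz (p ⬝ᵥ b)) ^ 2 := by
          rw [Finset.sum_congr rfl (g := fun _ => (P.card : ℤ) ^ 2), Finset.sum_const,
            nsmul_eq_mul]
          intro b hb
          congr 1
          rw [Finset.sum_congr rfl (g := fun _ => (1 : ℤ)), Finset.sum_const, nsmul_eq_mul,
            mul_one]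
          intro p hp
          unfold sgz
          rw [if_pos (h p hp b hb)]
      _ ≤ _ := Finset.sum_le_sum_of_subset_of_nonneg (Finset.subset_univ _)
          fun _ _ _ => sq_nonneg _
  rw [h1] at h2
  by_cases hP : P.card = 0
  · rw [hP, zero_mul]
    exact Nat.zero_le _
  · have hP' : (0 : ℤ) < P.card := by exact_mod_cast Nat.pos_of_ne_zero hP
    have h3 : (P.card : ℤ) * (P.card * C.card) ≤ P.card * 2 ^ l := by
      calc (P.card : ℤ) * (P.card * C.card) = C.card * (P.card : ℤ) ^ 2 := by ring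
        _ ≤ _ := h2
    have h4 := le_of_mul_le_mul_left h3 hP'
    exact_mod_cast h4

/-- Solutions of four linear equations. -/
theorem ker_card {l : ℕ} (a : Fin 4 → Vec l) :
    2 ^ l ≤ 16 * (univ.filter fun b : Vec l => ∀ i, a i ⬝ᵥ b = 0).card := by
  classical
  have h1 : (univ : Finset (Vec l)).card = ∑ t : Fin 4 → ZMod 2,
      (univ.filter fun b : Vec l => (fun i => a i ⬝ᵥ b) = t).card :=
    Finset.card_eq_sum_card_fiberwise fun b _ => Finset.mem_coe.2 (Finset.mem_univ _)
  have h2 : ∀ t : Fin 4 → ZMod 2, (univ.filter fun b : Vec l => (fun i => a i ⬝ᵥ b) = t).card ≤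
      (univ.filter fun b : Vec l => ∀ i, a i ⬝ᵥ b = 0).card := by
    intro t
    rcases (univ.filter fun b : Vec l => (fun i => a i ⬝ᵥ b) = t).eq_empty_or_nonempty with h | h
    · rw [h]
      simp
    · obtain ⟨b₀, hb₀⟩ := h
      rw [Finset.mem_filter] at hb₀
      refine Finset.card_le_card_of_injOn (fun b => b + b₀) ?_ (fun x _ y _ h => by simpa using h)
      intro b hb
      rw [Finset.mem_coe, Finset.mem_filter] at hb
      rw [Finset.mem_coe, Finset.mem_filter]
      refine ⟨Finset.mem_univ _, fun i => ?_⟩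
      have e1 := congrFun hb.2 i
      have e2 := congrFun hb₀.2 i
      have e1' : a i ⬝ᵥ b = t i := e1
      have e2' : a i ⬝ᵥ b₀ = t i := e2
      rw [dotProduct_add, e1', e2']
      exact CharTwo.add_self_eq_zero _
  have h3 : (univ : Finset (Vec l)).card = 2 ^ l := by
    simp [Vec, ZMod.card]
  rw [h3] at h1
  rw [h1]
  refine (Finset.sum_le_card_nsmul _ _ _ fun t _ => h2 t).trans (le_of_eq ?_)
  rw [smul_eq_mul]
  congr 1

/-- The labellings such that neighbours are orthogonal. -/
def Good {h l : ℕ} (z : Nd h → Vec l) : Prop := ∀ p c, Par h p c → z p ⬝ᵥ z c = 0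

theorem Good.update {h l : ℕ} {z : Nd h → Vec l} (hz : Good z) {e : Nd h} {b : Vec l}
    (hb : ∀ i : Fin 4, z ((Fin.cons (par h e) (chd h e) : Fin 4 → Nd h) i) ⬝ᵥ b = 0) :
    Good (Function.update z e b) := by
  intro p c hpc
  by_cases hp : p = e
  · subst hp
    have hc : c ≠ p := hpc.irrefl.symm
    rw [Function.update_self, Function.update_of_ne hc]
    obtain ⟨i, hi⟩ := Adj.mem_nbr (Or.inl hpc)
    rw [hi, dotProduct_comm]
    exact hb i
  · by_cases hc : c = e
    · subst hc
      rw [Function.update_self, Function.update_of_ne hp]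
      obtain ⟨i, hi⟩ := Adj.mem_nbr (Or.inr hpc)
      rw [hi]
      exact hb i
    · rw [Function.update_of_ne hp, Function.update_of_ne hc]
      exact hz p c hpc

open Classical in
/-- Resampling one label. -/
theorem resample {h l : ℕ} (H : (Nd h → Vec l) → Prop) (e : Nd h)
    (hH : ∀ z b, H z → H (Function.update z e b)) (C : Finset (Vec l)) :
    (univ.filter fun z : Nd h → Vec l => Good z ∧ H z ∧ z e ∈ C).card * 2 ^ l ≤
      16 * C.card * (univ.filter fun z : Nd h → Vec l => Good z ∧ H z).card := by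
  set A := univ.filter fun z : Nd h → Vec l => Good z ∧ H z ∧ z e ∈ C with hA
  set B := univ.filter fun z : Nd h → Vec l => Good z ∧ H z with hB
  let N : (Nd h → Vec l) → Finset (Vec l) := fun z => univ.filter fun b : Vec l =>
    ∀ i : Fin 4, z ((Fin.cons (par h e) (chd h e) : Fin 4 → Nd h) i) ⬝ᵥ b = 0
  have h1 : A.card * 2 ^ l ≤ 16 * ∑ z ∈ A, (N z).card := by
    rw [Finset.mul_sum, ← smul_eq_mul, ← Finset.sum_const]
    exact Finset.sum_le_sum fun z _ => ker_card _
  have h2 : ∑ z ∈ A, (N z).card ≤ B.card * C.card := by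
    rw [← Finset.card_sigma, ← Finset.card_product]
    refine Finset.card_le_card_of_injOn (fun q => (Function.update q.1 e q.2, q.1 e)) ?_ ?_
    · rintro ⟨z, b⟩ hzb
      rw [Finset.mem_coe, Finset.mem_sigma] at hzb
      obtain ⟨hz, hb⟩ := hzb
      rw [hA, Finset.mem_filter] at hz
      rw [Finset.mem_filter] at hb
      rw [Finset.mem_coe, Finset.mem_product]
      refine ⟨?_, hz.2.2.2⟩
      rw [hB, Finset.mem_filter]
      exact ⟨Finset.mem_univ _, hz.2.1.update hb.2, hH _ _ hz.2.2.1⟩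
    · rintro ⟨z, b⟩ _ ⟨z', b'⟩ _ heq
      simp only [Prod.mk.injEq] at heq
      obtain ⟨e1, e2⟩ := heq
      have hz : z = z' := by
        funext u
        by_cases hu : u = e
        · rw [hu, e2]
        · have := congrFun e1 u
          rwa [Function.update_of_ne hu, Function.update_of_ne hu] at this
      have hb : b = b' := by
        have := congrFun e1 e
        rwa [Function.update_self, Function.update_self] at this
      rw [hz, hb]
  calc A.card * 2 ^ l ≤ 16 * ∑ z ∈ A, (N z).card := h1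
    _ ≤ 16 * (B.card * C.card) := Nat.mul_le_mul_left _ h2
    _ = _ := by ring

open Classical in
/-- Many small sets of labels at different nodes. -/
theorem small_sets {h l : ℕ} : ∀ M : List (Nd h × Finset (Vec l)), (M.map Prod.fst).Nodup →
    (∀ q ∈ M, q.2.card ^ 2 ≤ 2 ^ l) →
    (univ.filter fun z : Nd h → Vec l => Good z ∧ ∀ q ∈ M, z q.1 ∈ q.2).card ^ 2 *
      (2 ^ l) ^ M.length ≤
      (univ.filter fun z : Nd h → Vec l => Good z).card ^ 2 * 256 ^ M.length := by
  intro M
  induction M with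
  | nil =>
    intro _ _
    simp
  | cons q M ih =>
    intro hnd hsm
    rw [List.map_cons, List.nodup_cons] at hnd
    have h1 := ih hnd.2 fun q' hq' => hsm q' (List.mem_cons_of_mem _ hq')
    have h2 := hsm q List.mem_cons_self
    have h3 : (univ.filter fun z : Nd h → Vec l =>
        Good z ∧ (∀ q' ∈ M, z q'.1 ∈ q'.2) ∧ z q.1 ∈ q.2).card * 2 ^ l ≤
        16 * q.2.card * (univ.filter fun z : Nd h → Vec l =>
        Good z ∧ ∀ q' ∈ M, z q'.1 ∈ q'.2).card := by
      convert resample (fun z : Nd h → Vec l => ∀ q' ∈ M, z q'.1 ∈ q'.2) q.1 (by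
        intro z b hz q' hq'
        have hne : q'.1 ≠ q.1 := by
          intro he
          exact hnd.1 (he ▸ List.mem_map_of_mem hq')
        rw [Function.update_of_ne hne]
        exact hz q' hq') q.2
    have h4 : (univ.filter fun z : Nd h → Vec l => Good z ∧ ∀ q' ∈ q :: M, z q'.1 ∈ q'.2) =
        univ.filter fun z : Nd h → Vec l => Good z ∧ (∀ q' ∈ M, z q'.1 ∈ q'.2) ∧ z q.1 ∈ q.2 := by
      ext z
      simp only [Finset.mem_filter, Finset.mem_univ, true_and, List.mem_cons, forall_eq_or_imp]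
      tauto
    rw [h4, List.length_cons]
    generalize (univ.filter fun z : Nd h → Vec l =>
      Good z ∧ (∀ q' ∈ M, z q'.1 ∈ q'.2) ∧ z q.1 ∈ q.2).card = a at h3 ⊢
    generalize (univ.filter fun z : Nd h → Vec l =>
      Good z ∧ ∀ q' ∈ M, z q'.1 ∈ q'.2).card = b at h3 h1
    generalize (univ.filter fun z : Nd h → Vec l => Good z).card = f at h1 ⊢
    have h5 : (a * 2 ^ l) ^ 2 ≤ (16 * q.2.card * b) ^ 2 := Nat.pow_le_pow_left h3 2
    have h6 : a ^ 2 * 2 ^ l * 2 ^ l ≤ 256 * b ^ 2 * 2 ^ l := by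
      calc a ^ 2 * 2 ^ l * 2 ^ l = (a * 2 ^ l) ^ 2 := by ring
        _ ≤ (16 * q.2.card * b) ^ 2 := h5
        _ = 256 * b ^ 2 * q.2.card ^ 2 := by ring
        _ ≤ _ := Nat.mul_le_mul_left _ h2
    have h7 : a ^ 2 * 2 ^ l ≤ 256 * b ^ 2 := Nat.le_of_mul_le_mul_right h6 (by positivity)
    calc a ^ 2 * (2 ^ l) ^ (M.length + 1) = a ^ 2 * 2 ^ l * (2 ^ l) ^ M.length := by ring
      _ ≤ 256 * b ^ 2 * (2 ^ l) ^ M.length := Nat.mul_le_mul_right _ h7
      _ = 256 * (b ^ 2 * (2 ^ l) ^ M.length) := by ring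
      _ ≤ 256 * (f ^ 2 * 256 ^ M.length) := Nat.mul_le_mul_left _ h1
      _ = _ := by ring

open Classical in
/-- A set of labellings which is a product across many disjoint edges is small. -/
theorem class_card {h l : ℕ} (Z : Finset (Nd h → Vec l)) (hZ : ∀ z ∈ Z, Good z)
    (P : Nd h → Prop) (L : List (Nd h × Nd h)) (hL : Crossing P L)
    (horth : ∀ e ∈ L, ∀ z ∈ Z, ∀ z' ∈ Z, z e.1 ⬝ᵥ z' e.2 = 0) :
    Z.card ^ 2 * (2 ^ l) ^ L.length ≤
      (univ.filter fun z : Nd h → Vec l => Good z).card ^ 2 * 256 ^ L.length := by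
  obtain ⟨hcr, hnd1, hnd2⟩ := hL
  let A : Nd h → Finset (Vec l) := fun u => Z.image fun z => z u
  let f : Nd h × Nd h → Nd h := fun e => if (A e.1).card ^ 2 ≤ 2 ^ l then e.1 else e.2
  have hf : ∀ e ∈ L, (A (f e)).card ^ 2 ≤ 2 ^ l := by
    intro e he
    by_cases h1 : (A e.1).card ^ 2 ≤ 2 ^ l
    · simp only [f, if_pos h1]
      exact h1
    · simp only [f, if_neg h1]
      have h2 : (A e.1).card * (A e.2).card ≤ 2 ^ l := by
        refine orth_card _ _ ?_
        intro p hp c hc
        obtain ⟨z, hz, rfl⟩ := Finset.mem_image.1 hp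
        obtain ⟨z', hz', rfl⟩ := Finset.mem_image.1 hc
        exact horth e he z hz z' hz'
      have h3 : (A e.2).card ≤ (A e.1).card := by
        by_contra hcon
        have h4 : (A e.1).card ^ 2 ≤ (A e.1).card * (A e.2).card := by
          rw [sq]
          exact Nat.mul_le_mul_left _ (by omega)
        omega
      calc (A e.2).card ^ 2 = (A e.2).card * (A e.2).card := sq _
        _ ≤ (A e.1).card * (A e.2).card := Nat.mul_le_mul_right _ h3
        _ ≤ _ := h2
  have hinj : ∀ e ∈ L, ∀ e' ∈ L, f e = f e' → e = e' := by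
    intro e he e' he' hee
    have i1 := List.inj_on_of_nodup_map hnd1
    have i2 := List.inj_on_of_nodup_map hnd2
    simp only [f] at hee
    split_ifs at hee with h1 h2 h2
    · exact i1 he he' hee
    · exact absurd (hee ▸ (hcr e he).2.1) (hcr e' he').2.2
    · exact absurd (hee ▸ (hcr e' he').2.1) (hcr e he).2.2
    · exact i2 he he' hee
  have key := small_sets (L.map fun e => (f e, A (f e))) (by
    rw [List.map_map]
    exact (hnd1.of_map).map_on fun e he e' he' => hinj e he e' he') (by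
      intro q hq
      obtain ⟨e, he, rfl⟩ := List.mem_map.1 hq
      exact hf e he)
  rw [List.length_map] at key
  refine le_trans (Nat.mul_le_mul_right _ (Nat.pow_le_pow_left (Finset.card_le_card ?_) 2)) key
  intro z hz
  rw [Finset.mem_filter]
  refine ⟨Finset.mem_univ _, hZ z hz, ?_⟩
  intro q hq
  obtain ⟨e, he, rfl⟩ := List.mem_map.1 hq
  exact Finset.mem_image_of_mem _ hz

end Pool.Agent.H561R2.CF
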