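import Pool.Agent.H561R2.CF.BPDefs
import Pool.Agent.H561R2.CF.Mass

/-!
# Cutting the computations of nondeterministic read-once branching programs
-/

namespace Pool.Agent.H561R2.CF

variable {n : ℕ} {Γ : Type} {S : ℕ} {B : NBP n Γ S}

theorem NBP.Walk.append {u v x : Fin S} {l l' : List (Finset (Fin n) × Set (Fin n → Γ))}
    (h : B.Walk u l v) (h' : B.Walk v l' x) : B.Walk u (l ++ l') x := by
  induction h with
  | nil u => exact h'
  | cons e _ ih => exact .cons e (ih h')

theorem NBP.Walk.split {u x : Fin S} {l : List (Finset (Fin n) × Set (Fin n → Γ))}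
    (h : B.Walk u l x) : ∀ t, ∃ v, B.Walk u (l.take t) v ∧ B.Walk v (l.drop t) x := by
  induction h with
  | nil u =>
    intro t
    exact ⟨u, by rw [List.take_nil]; exact .nil u, by rw [List.drop_nil]; exact .nil u⟩
  | @cons u v x A φ l e hw ih =>
    intro t
    cases t with
    | zero => exact ⟨u, .nil u, .cons e hw⟩
    | succ t =>
      obtain ⟨y, h1, h2⟩ := ih t
      exact ⟨y, .cons e h1, h2⟩

theorem NBP.Walk.exists_edge {u x : Fin S} {l : List (Finset (Fin n) × Set (Fin n → Γ))}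
    (h : B.Walk u l x) : ∀ p ∈ l, ∃ v v', B.edge v p.1 p.2 v' := by
  induction h with
  | nil u =>
    intro p hp
    exact absurd hp List.not_mem_nil
  | cons e _ ih =>
    intro p hp
    rw [List.mem_cons] at hp
    rcases hp with rfl | hp
    · exact ⟨_, _, e⟩
    · exact ih p hp

/-- The positions which are read. -/
def Rd (l : List (Finset (Fin n) × Set (Fin n → Γ))) (i : Fin n) : Prop := ∃ p ∈ l, i ∈ p.1

/-- **The cut.** -/
theorem NBP.cut (hB : B.ReadOnce) {b h h₀ : ℕ} (hw : B.Width b) (hb : b < 3 ^ h₀) (hh : h₀ ≤ h)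
    {Z : Type} (w : Z → Fin n → Γ) (key : Z → Nd h → Fin n) (h1 : ∀ z, B.Accepts (w z))
    (h2 : ∀ z u, ∃ w', (∀ i, i ≠ key z u → w z i = w' i) ∧ ¬B.Accepts w')
    (h3 : ∀ z z' (A : Set (Fin n)) [DecidablePred (· ∈ A)],
      B.Accepts (fun i => if i ∈ A then w z i else w z' i) →
      ∃ z'', (∀ u, key z u ∈ A → key z'' u = key z u) ∧ ∀ u, key z' u ∉ A → key z'' u = key z' u)
    (h4 : ∀ z, Function.Injective (key z)) :
    ∃ (c : Z → Fin S) (U : Z → Nd h → Prop),
      (∀ z, ∃ L : List (Nd h × Nd h), L.length + h₀ = h + 1 ∧ Crossing (U z) L) ∧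
      ∀ z z', c z = c z' → (∀ u, U z u → U z' u) ∧ ∃ z'', (∀ u, U z u → key z'' u = key z u) ∧
        ∀ u, ¬U z' u → key z'' u = key z' u := by
  classical
  choose l hwalk hl using h1
  have hall : ∀ z u, Rd (l z) (key z u) := by
    intro z u
    by_contra hcon
    obtain ⟨w', e1, e2⟩ := h2 z u
    refine e2 ⟨l z, hwalk z, fun p hp => ?_⟩
    obtain ⟨v, v', he⟩ := (hwalk z).exists_edge p hp
    refine B.reads _ _ _ _ he (w z) w' (fun i hi => ?_) (hl z p hp)
    refine e1 i ?_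
    rintro rfl
    exact hcon ⟨p, hp, hi⟩
  have hproc : ∀ z, Process b fun t u => Rd ((l z).take t) (key z u) := by
    intro z
    refine ⟨fun u hu => ?_, ⟨(l z).length, fun u => ?_⟩, fun t u hu => ?_,
      fun t s hs => ?_⟩
    · obtain ⟨p, hp, -⟩ := hu
      simp at hp
    · simp only [List.take_length]
      exact hall z u
    · obtain ⟨p, hp, hi⟩ := hu
      refine ⟨p, ?_, hi⟩
      rw [List.take_add_one]
      exact List.mem_append_left _ hp
    · have aux : ∀ x ∈ s, ∃ p, (l z)[t]? = some p ∧ key z x ∈ p.1 := by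
        intro x hx
        obtain ⟨b1, p, hp, hpx⟩ := hs x hx
        rw [List.take_add_one, List.mem_append] at hp
        rcases hp with hp | hp
        · exact absurd ⟨p, hp, hpx⟩ b1
        · rw [Option.mem_toList] at hp
          exact ⟨p, hp, hpx⟩
      rcases s.eq_empty_or_nonempty with rfl | ⟨x₀, hx₀⟩
      · simp
      · obtain ⟨p, hp, -⟩ := aux x₀ hx₀
        obtain ⟨v, v', he⟩ := (hwalk z).exists_edge p (List.mem_of_getElem? hp)
        refine le_trans ?_ (hw _ _ _ _ he)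
        refine Finset.card_le_card_of_injOn (key z) (fun x hx => ?_) fun x _ y _ hxy => h4 z hxy
        obtain ⟨q, hq, hqx⟩ := aux x hx
        rw [hp] at hq
        rw [Option.some.inj hq]
        exact hqx
  choose t L hL1 hL2 using fun z => (Process.exists_crossing hb h hh _ (hproc z))
  choose c hc1 hc2 using fun z => (hwalk z).split (t z)
  have key2 : ∀ z z', c z = c z' → ∃ z'', (∀ u, Rd ((l z).take (t z)) (key z u) →
      key z'' u = key z u) ∧ (∀ u, ¬Rd ((l z').take (t z')) (key z' u) →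
      ¬Rd ((l z).take (t z)) (key z' u) ∧ key z'' u = key z' u) := by
    intro z z' hzz
    have hwk : B.Walk B.start ((l z).take (t z) ++ (l z').drop (t z')) B.accept :=
      (hc1 z).append (hzz ▸ hc2 z')
    have hnd := hB _ hwk
    rw [List.pairwise_append] at hnd
    obtain ⟨-, -, hdis⟩ := hnd
    obtain ⟨z'', e1, e2⟩ := h3 z z' {i | Rd ((l z).take (t z)) i} (by
      refine ⟨_, hwk, fun p hp => ?_⟩
      obtain ⟨v, v', he⟩ := hwk.exists_edge p hp
      rw [List.mem_append] at hp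
      rcases hp with hp | hp
      · refine B.reads _ _ _ _ he (w z) _ (fun i hi => ?_) (hl z p (List.mem_of_mem_take hp))
        have hmem : Rd ((l z).take (t z)) i := ⟨p, hp, hi⟩
        exact (if_pos hmem).symm
      · refine B.reads _ _ _ _ he (w z') _ (fun i hi => ?_) (hl z' p (List.mem_of_mem_drop hp))
        have hmem : ¬Rd ((l z).take (t z)) i := by
          rintro ⟨q, hq, hqi⟩
          exact Finset.disjoint_left.1 (hdis q hq p hp) hqi hi
        exact (if_neg hmem).symm)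
    refine ⟨z'', e1, fun u hu => ?_⟩
    have hu' : ¬Rd ((l z).take (t z)) (key z' u) := by
      rintro ⟨q, hq, hqi⟩
      obtain ⟨p, hp, hpi⟩ := hall z' u
      rw [← List.take_append_drop (t z') (l z'), List.mem_append] at hp
      rcases hp with hp | hp
      · exact hu ⟨p, hp, hpi⟩
      · exact Finset.disjoint_left.1 (hdis q hq p hp) hqi hpi
    exact ⟨hu', e2 u hu'⟩
  refine ⟨c, fun z u => Rd ((l z).take (t z)) (key z u), fun z => ⟨L z, hL1 z, hL2 z⟩, ?_⟩
  intro z z' hzz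
  obtain ⟨z'', e1, e2⟩ := key2 z z' hzz
  refine ⟨fun u hu => ?_, z'', e1, fun u hu => (e2 u hu).2⟩
  by_contra hcon
  obtain ⟨e3, e4⟩ := e2 u hcon
  rw [← e4, e1 u hu] at e3
  exact e3 hu

open Finset in
open Classical in
/-- **The lower bound for nondeterministic read-once branching programs.** -/
theorem NBP.lower_bound (hB : B.ReadOnce) {b h h₀ l : ℕ} (hwd : B.Width b) (hb : b < 3 ^ h₀)
    (hh : h₀ ≤ h) (w : (Nd h → Vec l) → Fin n → Γ)
    (key : (Nd h → Vec l) → Nd h → Fin n)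
    (h2 : ∀ z, Good z → ∀ u, ∃ w', (∀ i, i ≠ key z u → w z i = w' i) ∧ ¬B.Accepts w')
    (h3 : ∀ z z', Good z → Good z' → ∀ (A : Set (Fin n)) [DecidablePred (· ∈ A)],
      B.Accepts (fun i => if i ∈ A then w z i else w z' i) →
      ∃ z'', Good z'' ∧ (fun i => if i ∈ A then w z i else w z' i) = w z'' ∧
        (∀ u, key z u ∈ A → key z'' u = key z u) ∧ ∀ u, key z' u ∉ A → key z'' u = key z' u)
    (h4 : ∀ z, Good z → Function.Injective (key z))
    (h5 : ∀ z z' u, key z u = key z' u → z u = z' u) :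
    (univ.filter fun z : Nd h → Vec l => Good z ∧ B.Accepts (w z)).card ^ 2 *
        2 ^ (l * (h + 1 - h₀)) ≤
      S ^ 2 * (univ.filter fun z : Nd h → Vec l => Good z).card ^ 2 * 2 ^ (8 * (h + 1 - h₀)) := by
  obtain ⟨c, U, hU, hc⟩ := NBP.cut (Z := {z : Nd h → Vec l // Good z ∧ B.Accepts (w z)}) hB hwd hb
    hh (fun z => w z.1) (fun z => key z.1) (fun z => z.2.2) (fun z => h2 z.1 z.2.1) (by
      intro z z' A _ hA
      obtain ⟨z'', e1, e2, e3, e4⟩ := h3 z.1 z'.1 z.2.1 z'.2.1 A hA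
      rw [e2] at hA
      exact ⟨⟨z'', e1, hA⟩, e3, e4⟩) (fun z => h4 z.1 z.2.1)
  set Z : Finset (Nd h → Vec l) := univ.filter fun z => Good z with hZ
  -- the classes
  let K : Fin S → Finset (Nd h → Vec l) := fun v =>
    univ.filter fun z => ∃ hz : Good z ∧ B.Accepts (w z), c ⟨z, hz⟩ = v
  have hK : ∀ v, (K v).card ^ 2 * (2 ^ l) ^ (h + 1 - h₀) ≤ Z.card ^ 2 * 256 ^ (h + 1 - h₀) := by
    intro v
    rcases (K v).eq_empty_or_nonempty with he | ⟨z₀, hz₀⟩
    · rw [he]
      simp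
    · rw [Finset.mem_filter] at hz₀
      obtain ⟨-, hg₀, hv₀⟩ := hz₀
      obtain ⟨L, hL1, hL2⟩ := hU ⟨z₀, hg₀⟩
      have key2 := class_card (K v) (fun z hz => by
        rw [Finset.mem_filter] at hz
        obtain ⟨-, hg, -⟩ := hz
        exact hg.1) (U ⟨z₀, hg₀⟩) L hL2 (by
          intro e he z hz z' hz'
          rw [Finset.mem_filter] at hz hz'
          obtain ⟨-, hg, hv⟩ := hz
          obtain ⟨-, hg', hv'⟩ := hz'
          obtain ⟨hadj, hin, hout⟩ := hL2.1 e he
          obtain ⟨-, z'', a1, a2⟩ := hc ⟨z, hg⟩ ⟨z', hg'⟩ (hv.trans hv'.symm)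
          have b1 : U ⟨z, hg⟩ e.1 := (hc ⟨z₀, hg₀⟩ ⟨z, hg⟩ (hv₀.trans hv.symm)).1 _ hin
          have b2 : ¬U ⟨z', hg'⟩ e.2 := fun hcon =>
            hout ((hc ⟨z', hg'⟩ ⟨z₀, hg₀⟩ (hv'.trans hv₀.symm)).1 _ hcon)
          have c1 : z''.1 e.1 = z e.1 := h5 _ _ _ (a1 _ b1)
          have c2 : z''.1 e.2 = z' e.2 := h5 _ _ _ (a2 _ b2)
          rw [← c1, ← c2]
          rcases hadj with hadj | hadj
          · exact z''.2.1 _ _ hadj
          · rw [dotProduct_comm]
            exact z''.2.1 _ _ hadj)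
      have hL3 : L.length = h + 1 - h₀ := by omega
      rw [hL3] at key2
      exact key2
  have hsum : (univ.filter fun z : Nd h → Vec l => Good z ∧ B.Accepts (w z)).card ≤
      ∑ v, (K v).card := by
    have hsub : (univ.filter fun z : Nd h → Vec l => Good z ∧ B.Accepts (w z)) ⊆
        univ.biUnion K := by
      intro z hz
      rw [Finset.mem_filter] at hz
      rw [Finset.mem_biUnion]
      exact ⟨c ⟨z, hz.2⟩, Finset.mem_univ _, Finset.mem_filter.2 ⟨Finset.mem_univ _, hz.2, rfl⟩⟩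
    exact (Finset.card_le_card hsub).trans Finset.card_biUnion_le
  obtain ⟨v, -, hv⟩ := Finset.exists_max_image univ (fun v => (K v).card)
    ⟨B.start, Finset.mem_univ _⟩
  have h6 : (univ.filter fun z : Nd h → Vec l => Good z ∧ B.Accepts (w z)).card ≤
      S * (K v).card := by
    refine hsum.trans ((Finset.sum_le_card_nsmul _ _ _ fun v' _ => hv v'
      (Finset.mem_univ _)).trans (le_of_eq ?_))
    rw [smul_eq_mul, Finset.card_univ, Fintype.card_fin]
  have e1 : (2 ^ l) ^ (h + 1 - h₀) = 2 ^ (l * (h + 1 - h₀)) := (pow_mul 2 l _).symm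
  have e2 : 256 ^ (h + 1 - h₀) = 2 ^ (8 * (h + 1 - h₀)) := by rw [pow_mul]; norm_num
  rw [← e1, ← e2]
  generalize (univ.filter fun z : Nd h → Vec l => Good z ∧ B.Accepts (w z)).card = a at h6 ⊢
  calc a ^ 2 * (2 ^ l) ^ (h + 1 - h₀) ≤ (S * (K v).card) ^ 2 * (2 ^ l) ^ (h + 1 - h₀) :=
        Nat.mul_le_mul_right _ (Nat.pow_le_pow_left h6 2)
    _ = S ^ 2 * ((K v).card ^ 2 * (2 ^ l) ^ (h + 1 - h₀)) := by ring
    _ ≤ S ^ 2 * (Z.card ^ 2 * 256 ^ (h + 1 - h₀)) := Nat.mul_le_mul_left _ (hK v)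
    _ = _ := by ring

end Pool.Agent.H561R2.CF
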