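import Mathlib

/-!
# Nondeterministic read-once branching programs
-/

namespace Pool.Agent.H561R2.CF

/-- A nondeterministic branching program with `S` nodes, which reads words of length `n` over the
alphabet `Γ`. `edge u A φ v` is an edge from `u` to `v` which reads the letters at the positions in
`A` and can be used by the words in `φ`; the condition `w ∈ φ` may be any condition on the letters
at the positions in `A`. An edge with `A = ∅` and `φ` = all words is a free nondeterministic
choice. -/
structure NBP (n : ℕ) (Γ : Type) (S : ℕ) where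
  start : Fin S
  accept : Fin S
  edge : Fin S → Finset (Fin n) → Set (Fin n → Γ) → Fin S → Prop
  reads : ∀ u A φ v, edge u A φ v →
    ∀ w w' : Fin n → Γ, (∀ i ∈ A, w i = w' i) → w ∈ φ → w' ∈ φ

/-- `B.Walk u l v`: there is a walk from `u` to `v`, and `l` is the list of the pairs
(set of positions, condition) on its edges. -/
inductive NBP.Walk {n : ℕ} {Γ : Type} {S : ℕ} (B : NBP n Γ S) :
    Fin S → List (Finset (Fin n) × Set (Fin n → Γ)) → Fin S → Prop
  | nil (u : Fin S) : B.Walk u [] u
  | cons {u v x : Fin S} {A : Finset (Fin n)} {φ : Set (Fin n → Γ)}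
      {l : List (Finset (Fin n) × Set (Fin n → Γ))} :
      B.edge u A φ v → B.Walk v l x → B.Walk u ((A, φ) :: l) x

/-- No walk from the start to the accepting node reads a position twice. -/
def NBP.ReadOnce {n : ℕ} {Γ : Type} {S : ℕ} (B : NBP n Γ S) : Prop :=
  ∀ l, B.Walk B.start l B.accept → l.Pairwise fun p q => Disjoint p.1 q.1

/-- Every edge reads at most `b` letters. -/
def NBP.Width {n : ℕ} {Γ : Type} {S : ℕ} (B : NBP n Γ S) (b : ℕ) : Prop :=
  ∀ u A φ v, B.edge u A φ v → A.card ≤ b

/-- The program accepts `w` if some walk from the start to the accepting node can be used. -/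
def NBP.Accepts {n : ℕ} {Γ : Type} {S : ℕ} (B : NBP n Γ S) (w : Fin n → Γ) : Prop :=
  ∃ l, B.Walk B.start l B.accept ∧ ∀ p ∈ l, w ∈ p.2

end Pool.Agent.H561R2.CF
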