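import Pool.Agent.H561R2.CF.Machine

/-!
# A context-free grammar for the language
-/

namespace Pool.Agent.H561R2.CF

section

variable {T N : Type} {R : Finset (ContextFreeRule T N)}

/-- Parse trees: the sentential form yields the word. -/
inductive Yd (R : Finset (ContextFreeRule T N)) : List (Symbol T N) → List T → Prop
  | nil : Yd R [] []
  | term {a : T} {s : List (Symbol T N)} {w : List T} :
      Yd R s w → Yd R (.terminal a :: s) (a :: w)
  | nt {r : ContextFreeRule T N} {s : List (Symbol T N)} {u v : List T} :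
      r ∈ R → Yd R r.output u → Yd R s v → Yd R (.nonterminal r.input :: s) (u ++ v)

theorem Yd.append {s t : List (Symbol T N)} {u v : List T} (hs : Yd R s u) (ht : Yd R t v) :
    Yd R (s ++ t) (u ++ v) := by
  induction hs with
  | nil => exact ht
  | term _ ih => exact .term ih
  | nt hr h1 _ _ ih =>
    rw [List.append_assoc]
    exact .nt hr h1 ih

theorem Yd.split : ∀ {s t : List (Symbol T N)} {w : List T}, Yd R (s ++ t) w →
    ∃ u v, w = u ++ v ∧ Yd R s u ∧ Yd R t v := by
  intro s
  induction s with
  | nil =>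
    intro t w h
    exact ⟨[], w, rfl, .nil, h⟩
  | cons a s ih =>
    intro t w h
    generalize hx : (a :: s) ++ t = x at h
    cases h with
    | nil => simp at hx
    | term h1 =>
      rw [List.cons_append] at hx
      obtain ⟨rfl, rfl⟩ := List.cons.inj hx
      obtain ⟨u, v, rfl, h2, h3⟩ := ih h1
      exact ⟨_ :: u, v, rfl, .term h2, h3⟩
    | nt hr h1 h2 =>
      rw [List.cons_append] at hx
      obtain ⟨rfl, rfl⟩ := List.cons.inj hx
      obtain ⟨u, v, rfl, h3, h4⟩ := ih h2
      exact ⟨_ ++ u, v, by rw [List.append_assoc], .nt hr h1 h3, h4⟩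

theorem Yd.word : ∀ w : List T, Yd R (w.map .terminal) w := by
  intro w
  induction w with
  | nil => exact .nil
  | cons a w ih => exact .term ih

theorem yd_iff {g : ContextFreeGrammar T} {s : List (Symbol T g.NT)} {w : List T} :
    g.Derives s (w.map .terminal) ↔ Yd g.rules s w := by
  constructor
  · intro h
    generalize hx : w.map Symbol.terminal = x at h
    induction h using Relation.ReflTransGen.head_induction_on with
    | refl =>
      subst hx
      exact Yd.word w
    | head h1 _ ih =>
      obtain ⟨r, hr, h2⟩ := h1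
      obtain ⟨p, q, rfl, rfl⟩ := h2.exists_parts
      obtain ⟨u, v, rfl, h3, h4⟩ := ih.split
      obtain ⟨u1, u2, rfl, h5, h6⟩ := h3.split
      refine (h5.append ?_).append h4
      have := Yd.nt hr h6 .nil
      rw [List.append_nil] at this
      exact this
  · intro h
    induction h with
    | nil => exact Relation.ReflTransGen.refl
    | term _ ih => exact ih.append_left [_]
    | @nt r s u v hr _ _ ih1 ih2 =>
      have h0 : g.Produces [.nonterminal r.input] r.output :=
        ⟨r, hr, ContextFreeRule.Rewrites.input_output⟩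
      have h1 : g.Derives [.nonterminal r.input] r.output := h0.single
      have h2 := ((h1.trans ih1).append_right s).trans (ih2.append_left (u.map .terminal))
      rw [List.map_append]
      exact h2

end

/-- The nonterminals. -/
inductive NT : Type
  | S | D | A | P | E | F
  deriving DecidableEq

/-- The letters which are skipped. -/
def skips : List Lt := [.push true, .push false, .pop true, .pop false, .opn, .no]

theorem mem_skips {a : Lt} : a ∈ skips ↔ a ≠ .cls ∧ a ≠ .yes := by
  cases a with
  | push b => cases b <;> decide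
  | pop b => cases b <;> decide
  | _ => decide

/-- The words generated by the nonterminals. -/
inductive Y : NT → List Lt → Prop
  | s0 : Y .S []
  | s1 {u v w : List Lt} : Y .A u → Y .D v → Y .E w → Y .S (u ++ (v ++ w))
  | a0 {u : List Lt} : Y .P u → Y .A (.opn :: u)
  | p0 : Y .P [.yes]
  | p1 {a : Lt} {u : List Lt} : a ∈ skips → Y .P u → Y .P (a :: u)
  | e0 : Y .E [.cls]
  | e1 {u : List Lt} : Y .F u → Y .E (.no :: u)
  | f0 : Y .F [.cls]
  | f1 {a : Lt} {u : List Lt} : a ∈ skips → Y .F u → Y .F (a :: u)
  | d0 : Y .D []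
  | d1 {b : Bool} {u v : List Lt} : Y .D u → Y .D v → Y .D (.push b :: (u ++ .pop b :: v))
  | d2 {u v w : List Lt} : Y .E u → Y .A v → Y .D w → Y .D (u ++ (v ++ w))

/-- The computations which are described by the nonterminals. -/
def Sem : NT → List Lt → Prop
  | .S, w => mach.run (.fin, []) w = some (.fin, [])
  | .D, w => ∀ σ, mach.run (.act, σ) w = some (.act, σ)
  | .A, w => ∀ σ, mach.run (ost σ, σ) w = some (.act, σ)
  | .P, w => ∀ σ, mach.run (.look, σ) w = some (.act, σ)
  | .E, w => ∀ σ, mach.run (.act, σ) w = some (ost σ, σ)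
  | .F, w => ∀ σ, mach.run (.done, σ) w = some (ost σ, σ)

theorem Y.sem {X : NT} {w : List Lt} (h : Y X w) : Sem X w := by
  induction h with
  | s0 => exact rfl
  | @s1 u v w _ _ _ h1 h2 h3 =>
    show mach.run (.fin, []) (u ++ (v ++ w)) = some (.fin, [])
    have h1' : mach.run (.fin, []) u = some (.act, []) := h1 []
    rw [run_append, h1', Option.bind_some, run_append, h2, Option.bind_some, h3]
    rfl
  | a0 _ h1 =>
    intro σ
    rw [run_cons, next_opn, Option.bind_some]
    exact h1 σ
  | p0 =>
    intro σ
    rw [run_cons, next_look_yes]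
    rfl
  | p1 ha _ h1 =>
    intro σ
    rw [mem_skips] at ha
    rw [run_cons, next_look σ ha.1 ha.2]
    exact h1 σ
  | e0 =>
    intro σ
    rw [run_cons, next_act_cls]
    rfl
  | e1 _ h1 =>
    intro σ
    rw [run_cons, next_act_no]
    exact h1 σ
  | f0 =>
    intro σ
    rw [run_cons, next_done_cls]
    rfl
  | f1 ha _ h1 =>
    intro σ
    rw [mem_skips] at ha
    rw [run_cons, next_done σ ha.1 ha.2]
    exact h1 σ
  | d0 => intro σ; rfl
  | @d1 b u v _ _ h1 h2 =>
    intro σ
    rw [run_cons, next_act_push, Option.bind_some, run_append, h1, Option.bind_some, run_cons,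
      (next_act_pop (b :: σ) b).2 ⟨σ, rfl, rfl⟩]
    exact h2 σ
  | d2 _ _ _ h1 h2 h3 =>
    intro σ
    rw [run_append, h1, Option.bind_some, run_append, h2, Option.bind_some]
    exact h3 σ

/-- The words which lead from the state `act` with the stack `σ` to the end. -/
def TS : List Bool → List Lt → Prop
  | [], w => ∃ d e, w = d ++ e ∧ Y .D d ∧ Y .E e
  | b :: σ, w => ∃ d v, w = d ++ .pop b :: v ∧ Y .D d ∧ TS σ v

theorem TS.ext {x : List Lt} (hx : ∀ d, Y .D d → Y .D (x ++ d)) {σ : List Bool} {v : List Lt}
    (h : TS σ v) : TS σ (x ++ v) := by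
  cases σ with
  | nil =>
    obtain ⟨d, e, rfl, h1, h2⟩ := h
    exact ⟨x ++ d, e, (List.append_assoc _ _ _).symm, hx d h1, h2⟩
  | cons b σ =>
    obtain ⟨d, v', rfl, h1, h2⟩ := h
    exact ⟨x ++ d, v', (List.append_assoc _ _ _).symm, hx d h1, h2⟩

/-- The words which lead from outside of the blocks with the stack `σ` to the end. -/
def OS (σ : List Bool) (w : List Lt) : Prop :=
  (w = [] ∧ σ = []) ∨ ∃ u v, w = .opn :: (u ++ v) ∧ Y .P u ∧ TS σ v

theorem TS_of_E {e : List Lt} (he : Y .E e) {σ : List Bool} {w : List Lt} (h : OS σ w) :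
    TS σ (e ++ w) := by
  rcases h with ⟨rfl, rfl⟩ | ⟨u, v, rfl, h1, h2⟩
  · exact ⟨[], e, by simp, .d0, he⟩
  · have : e ++ .opn :: (u ++ v) = (e ++ .opn :: u) ++ v := by simp
    rw [this]
    refine h2.ext fun d hd => ?_
    rw [List.append_assoc]
    exact .d2 he (.a0 h1) hd

theorem run_to_fin : ∀ (w : List Lt) (σ : List Bool) (c : St × List Bool), c.1 = .fin →
    (mach.run (ost σ, σ) w = some c → OS σ w) ∧
    (mach.run (.look, σ) w = some c → ∃ u v, w = u ++ v ∧ Y .P u ∧ TS σ v) ∧
    (mach.run (.act, σ) w = some c → TS σ w) ∧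
    (mach.run (.done, σ) w = some c → ∃ u v, w = u ++ v ∧ Y .F u ∧ OS σ v) := by
  intro w
  induction w with
  | nil =>
    intro σ c hc
    refine ⟨fun h => ?_, fun h => ?_, fun h => ?_, fun h => ?_⟩
    · have h1 : (ost σ, σ) = c := Option.some.inj h
      rw [← h1] at hc
      exact Or.inl ⟨rfl, ost_fin.1 hc⟩
    · have h1 : (St.look, σ) = c := Option.some.inj h
      rw [← h1] at hc
      exact absurd hc (by simp)
    · have h1 : (St.act, σ) = c := Option.some.inj h
      rw [← h1] at hc
      exact absurd hc (by simp)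
    · have h1 : (St.done, σ) = c := Option.some.inj h
      rw [← h1] at hc
      exact absurd hc (by simp)
  | cons a w ih =>
    intro σ c hc
    refine ⟨fun h => ?_, fun h => ?_, fun h => ?_, fun h => ?_⟩
    · rw [run_cons] at h
      obtain ⟨c', h1, h2⟩ := Option.bind_eq_some_iff.1 h
      by_cases ha : a = .opn
      · subst ha
        rw [next_opn] at h1
        have := Option.some.inj h1
        subst this
        obtain ⟨u, v, rfl, h3, h4⟩ := (ih σ c hc).2.1 h2
        exact Or.inr ⟨u, v, rfl, h3, h4⟩
      · have : mach.next (ost σ, σ) a = none := by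
          cases a <;> first | exact absurd rfl ha | (cases σ <;> rfl)
        rw [this] at h1
        exact absurd h1 (by simp)
    · rw [run_cons] at h
      obtain ⟨c', h1, h2⟩ := Option.bind_eq_some_iff.1 h
      by_cases ha : a = .cls
      · subst ha
        rw [next_look_cls] at h1
        exact absurd h1 (by simp)
      · by_cases ha' : a = .yes
        · subst ha'
          rw [next_look_yes] at h1
          have := Option.some.inj h1
          subst this
          exact ⟨[.yes], w, rfl, .p0, (ih σ c hc).2.2.1 h2⟩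
        · rw [next_look σ ha ha'] at h1
          have := Option.some.inj h1
          subst this
          obtain ⟨u, v, rfl, h3, h4⟩ := (ih σ c hc).2.1 h2
          exact ⟨a :: u, v, rfl, .p1 (mem_skips.2 ⟨ha, ha'⟩) h3, h4⟩
    · rw [run_cons] at h
      obtain ⟨c', h1, h2⟩ := Option.bind_eq_some_iff.1 h
      cases a with
      | push b =>
        rw [next_act_push] at h1
        have := Option.some.inj h1
        subst this
        obtain ⟨d, v, rfl, h3, h4⟩ := (ih (b :: σ) c hc).2.2.1 h2
        have : (Lt.push b :: (d ++ Lt.pop b :: v)) = (.push b :: (d ++ [.pop b])) ++ v := by simp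
        rw [this]
        refine h4.ext fun d' hd' => ?_
        have e : (Lt.push b :: (d ++ [Lt.pop b])) ++ d' = .push b :: (d ++ .pop b :: d') := by simp
        rw [e]
        exact .d1 h3 hd'
      | pop b =>
        obtain ⟨σ', rfl, rfl⟩ := (next_act_pop σ b).1 h1
        exact ⟨[], w, rfl, .d0, (ih σ' c hc).2.2.1 h2⟩
      | opn =>
        rw [next_act_opn] at h1
        exact absurd h1 (by simp)
      | cls =>
        rw [next_act_cls] at h1
        have := Option.some.inj h1
        subst this
        exact TS_of_E .e0 ((ih σ c hc).1 h2)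
      | yes =>
        rw [next_act_yes] at h1
        exact absurd h1 (by simp)
      | no =>
        rw [next_act_no] at h1
        have := Option.some.inj h1
        subst this
        obtain ⟨u, v, rfl, h3, h4⟩ := (ih σ c hc).2.2.2 h2
        exact TS_of_E (.e1 h3) h4
    · rw [run_cons] at h
      obtain ⟨c', h1, h2⟩ := Option.bind_eq_some_iff.1 h
      by_cases ha : a = .cls
      · subst ha
        rw [next_done_cls] at h1
        have := Option.some.inj h1
        subst this
        exact ⟨[.cls], w, rfl, .f0, (ih σ c hc).1 h2⟩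
      · by_cases ha' : a = .yes
        · subst ha'
          rw [next_done_yes] at h1
          exact absurd h1 (by simp)
        · rw [next_done σ ha ha'] at h1
          have := Option.some.inj h1
          subst this
          obtain ⟨u, v, rfl, h3, h4⟩ := (ih σ c hc).2.2.2 h2
          exact ⟨a :: u, v, rfl, .f1 (mem_skips.2 ⟨ha, ha'⟩) h3, h4⟩

theorem mem_language_iff (w : List Lt) : w ∈ mach.language ↔ Y .S w := by
  constructor
  · rintro ⟨c, h1, h2⟩
    have h1' : mach.run (ost [], []) w = some c := h1
    rcases (run_to_fin w [] c h2).1 h1' with ⟨rfl, -⟩ | ⟨u, v, rfl, h3, d, e, rfl, h4, h5⟩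
    · exact .s0
    · exact .s1 (.a0 h3) h4 h5
  · intro h
    exact ⟨_, h.sem, rfl⟩

/-- The rules of the grammar. -/
def ruleList : List (ContextFreeRule Lt NT) :=
  [⟨.S, []⟩,
    ⟨.S, [.nonterminal .A, .nonterminal .D, .nonterminal .E]⟩,
    ⟨.A, [.terminal .opn, .nonterminal .P]⟩,
    ⟨.P, [.terminal .yes]⟩,
    ⟨.E, [.terminal .cls]⟩,
    ⟨.E, [.terminal .no, .nonterminal .F]⟩,
    ⟨.F, [.terminal .cls]⟩,
    ⟨.D, []⟩,
    ⟨.D, [.nonterminal .E, .nonterminal .A, .nonterminal .D]⟩] ++
  [true, false].map (fun b =>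
    ⟨.D, [.terminal (.push b), .nonterminal .D, .terminal (.pop b), .nonterminal .D]⟩) ++
  skips.map (fun a => ⟨.P, [.terminal a, .nonterminal .P]⟩) ++
  skips.map (fun a => ⟨.F, [.terminal a, .nonterminal .F]⟩)

/-- The grammar. -/
def gram : ContextFreeGrammar Lt where
  NT := NT
  initial := .S
  rules := ruleList.toFinset

/-- The words described by a sentential form. -/
def YL : List (Symbol Lt NT) → List Lt → Prop
  | [], w => w = []
  | .terminal a :: s, w => ∃ w', w = a :: w' ∧ YL s w'
  | .nonterminal X :: s, w => ∃ u v, w = u ++ v ∧ Y X u ∧ YL s v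

theorem rule_sound {r : ContextFreeRule Lt NT} (hr : r ∈ ruleList) {u : List Lt}
    (h : YL r.output u) : Y r.input u := by
  unfold ruleList at hr
  simp only [List.mem_append, List.mem_cons, List.mem_map, List.not_mem_nil, or_false] at hr
  rcases hr with ((hr | hr) | hr) | hr
  · rcases hr with rfl | rfl | rfl | rfl | rfl | rfl | rfl | rfl | rfl
    · have : u = [] := h
      subst this
      exact .s0
    · obtain ⟨a, b, rfl, h1, c, d, rfl, h2, e, f, rfl, h3, rfl⟩ := h
      rw [List.append_nil]
      exact .s1 h1 h2 h3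
    · obtain ⟨a, rfl, b, c, rfl, h1, rfl⟩ := h
      rw [List.append_nil]
      exact .a0 h1
    · obtain ⟨a, rfl, rfl⟩ := h
      exact .p0
    · obtain ⟨a, rfl, rfl⟩ := h
      exact .e0
    · obtain ⟨a, rfl, b, c, rfl, h1, rfl⟩ := h
      rw [List.append_nil]
      exact .e1 h1
    · obtain ⟨a, rfl, rfl⟩ := h
      exact .f0
    · have : u = [] := h
      subst this
      exact .d0
    · obtain ⟨a, b, rfl, h1, c, d, rfl, h2, e, f, rfl, h3, rfl⟩ := h
      rw [List.append_nil]
      exact .d2 h1 h2 h3
  · obtain ⟨b, -, rfl⟩ := hr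
    obtain ⟨a, rfl, c, d, rfl, h1, e, rfl, f, i, rfl, h2, rfl⟩ := h
    rw [List.append_nil]
    exact .d1 h1 h2
  · obtain ⟨a, ha, rfl⟩ := hr
    obtain ⟨b, rfl, c, d, rfl, h1, rfl⟩ := h
    rw [List.append_nil]
    exact .p1 ha h1
  · obtain ⟨a, ha, rfl⟩ := hr
    obtain ⟨b, rfl, c, d, rfl, h1, rfl⟩ := h
    rw [List.append_nil]
    exact .f1 ha h1

theorem YL_of_yd {s : List (Symbol Lt NT)} {w : List Lt} (h : Yd ruleList.toFinset s w) :
    YL s w := by
  induction h with
  | nil => exact rfl
  | term _ ih => exact ⟨_, rfl, ih⟩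
  | nt hr _ _ ih1 ih2 => exact ⟨_, _, rfl, rule_sound (List.mem_toFinset.1 hr) ih1, ih2⟩

theorem yd_rule {X : NT} {s : List (Symbol Lt NT)} {u : List Lt}
    (hr : (⟨X, s⟩ : ContextFreeRule Lt NT) ∈ ruleList) (h : Yd ruleList.toFinset s u) :
    Yd ruleList.toFinset [.nonterminal X] u := by
  have := Yd.nt (r := ⟨X, s⟩) (List.mem_toFinset.2 hr) h .nil
  rw [List.append_nil] at this
  exact this

theorem Y.yd {X : NT} {w : List Lt} (h : Y X w) :
    Yd ruleList.toFinset [.nonterminal X] w := by
  induction h with
  | s0 => exact yd_rule (s := []) (by simp [ruleList]) .nil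
  | @s1 u v w _ _ _ h1 h2 h3 =>
    exact yd_rule (s := [.nonterminal .A, .nonterminal .D, .nonterminal .E])
      (by simp [ruleList]) (h1.append (h2.append h3))
  | a0 _ h1 =>
    exact yd_rule (s := [.terminal .opn, .nonterminal .P]) (by simp [ruleList]) (.term h1)
  | p0 => exact yd_rule (s := [.terminal .yes]) (by simp [ruleList]) (.term .nil)
  | @p1 a u ha _ h1 =>
    exact yd_rule (s := [.terminal a, .nonterminal .P]) (by simp [ruleList, ha]) (.term h1)
  | e0 => exact yd_rule (s := [.terminal .cls]) (by simp [ruleList]) (.term .nil)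
  | e1 _ h1 =>
    exact yd_rule (s := [.terminal .no, .nonterminal .F]) (by simp [ruleList]) (.term h1)
  | f0 => exact yd_rule (s := [.terminal .cls]) (by simp [ruleList]) (.term .nil)
  | @f1 a u ha _ h1 =>
    exact yd_rule (s := [.terminal a, .nonterminal .F]) (by simp [ruleList, ha]) (.term h1)
  | d0 => exact yd_rule (s := []) (by simp [ruleList]) .nil
  | @d1 b u v _ _ h1 h2 =>
    exact yd_rule (s := [.terminal (.push b), .nonterminal .D, .terminal (.pop b),
      .nonterminal .D]) (by cases b <;> simp [ruleList]) (.term (h1.append (.term h2)))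
  | d2 _ _ _ h1 h2 h3 =>
    exact yd_rule (s := [.nonterminal .E, .nonterminal .A, .nonterminal .D])
      (by simp [ruleList]) (h1.append (h2.append h3))

theorem gram_language : gram.language = mach.language := by
  ext w
  rw [mem_language_iff, ContextFreeGrammar.mem_language_iff, yd_iff]
  constructor
  · intro h
    obtain ⟨u, v, rfl, h1, h2⟩ := YL_of_yd h
    have : v = [] := h2
    subst this
    rw [List.append_nil]
    exact h1
  · intro h
    exact h.yd

theorem isContextFree : mach.language.IsContextFree := ⟨gram, gram_language⟩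

end Pool.Agent.H561R2.CF
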