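import Pool.Agent.H561R2.CF.PDADefs
import Pool.Agent.H561R2.CF.Mass

/-!
# The automaton
-/

namespace Pool.Agent.H561R2.CF

/-- The letters. -/
inductive Lt : Type
  | push (b : Bool) | pop (b : Bool) | opn | cls | yes | no
  deriving DecidableEq

instance : Fintype Lt where
  elems := {.push true, .push false, .pop true, .pop false, .opn, .cls, .yes, .no}
  complete := by
    intro a
    cases a with
    | push b => cases b <;> decide
    | pop b => cases b <;> decide
    | _ => decide

/-- The states. -/
inductive St : Type
  | fin | out | look | act | done
  deriving DecidableEq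

instance : Fintype St where
  elems := {.fin, .out, .look, .act, .done}
  complete := by intro a; cases a <;> decide

/-- The state outside of the blocks. -/
def st (top : Option Bool) : St := if top = none then .fin else .out

/-- The transition function. -/
def stp : St → Option Bool → Lt → Option (St × List Bool)
  | .fin, top, .opn => some (.look, top.toList)
  | .out, top, .opn => some (.look, top.toList)
  | .fin, _, _ => none
  | .out, _, _ => none
  | .look, _, .cls => none
  | .look, top, .yes => some (.act, top.toList)
  | .look, top, _ => some (.look, top.toList)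
  | .act, top, .push b => some (.act, b :: top.toList)
  | .act, top, .pop b => if top = some b then some (.act, []) else none
  | .act, top, .no => some (.done, top.toList)
  | .act, top, .cls => some (st top, top.toList)
  | .act, _, .yes => none
  | .act, _, .opn => none
  | .done, _, .yes => none
  | .done, top, .cls => some (st top, top.toList)
  | .done, top, _ => some (.done, top.toList)

/-- The automaton. -/
def mach : RDPDA St Bool Lt where
  start := .fin
  final := {.fin}
  step := stp

theorem top_tail (σ : List Bool) : σ.head?.toList ++ σ.tail = σ := by
  cases σ <;> rfl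

/-- The state outside of the blocks. -/
def ost (σ : List Bool) : St := st σ.head?

theorem ost_fin {σ : List Bool} : ost σ = .fin ↔ σ = [] := by
  cases σ with
  | nil => simp [ost, st]
  | cons b σ => simp [ost, st]

theorem next_opn (σ : List Bool) : mach.next (ost σ, σ) .opn = some (.look, σ) := by
  cases σ <;> rfl

theorem next_look_yes (σ : List Bool) : mach.next (.look, σ) .yes = some (.act, σ) := by
  cases σ <;> rfl

theorem next_look_cls (σ : List Bool) : mach.next (.look, σ) .cls = none := by
  cases σ <;> rfl

theorem next_look (σ : List Bool) {a : Lt} (h1 : a ≠ .cls) (h2 : a ≠ .yes) :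
    mach.next (.look, σ) a = some (.look, σ) := by
  cases a <;> first | exact absurd rfl h1 | exact absurd rfl h2 | (cases σ <;> rfl)

theorem next_act_push (σ : List Bool) (b : Bool) :
    mach.next (.act, σ) (.push b) = some (.act, b :: σ) := by
  cases σ <;> rfl

theorem next_act_pop (σ : List Bool) (b : Bool) {c : St × List Bool} :
    mach.next (.act, σ) (.pop b) = some c ↔ ∃ σ', σ = b :: σ' ∧ c = (.act, σ') := by
  cases σ with
  | nil =>
    have : mach.next (.act, []) (.pop b) = none := rfl
    rw [this]
    simp
  | cons b' σ =>
    by_cases hb : b' = b
    · subst hb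
      have : mach.next (.act, b' :: σ) (.pop b') = some (.act, σ) := by
        simp [RDPDA.next, mach, stp]
      rw [this]
      simp [eq_comm]
    · have : mach.next (.act, b' :: σ) (.pop b) = none := by
        simp [RDPDA.next, mach, stp, hb]
      rw [this]
      simp [hb]

theorem next_act_no (σ : List Bool) : mach.next (.act, σ) .no = some (.done, σ) := by
  cases σ <;> rfl

theorem next_act_cls (σ : List Bool) : mach.next (.act, σ) .cls = some (ost σ, σ) := by
  cases σ <;> rfl

theorem next_act_yes (σ : List Bool) : mach.next (.act, σ) .yes = none := by
  cases σ <;> rfl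

theorem next_act_opn (σ : List Bool) : mach.next (.act, σ) .opn = none := by
  cases σ <;> rfl

theorem next_done_yes (σ : List Bool) : mach.next (.done, σ) .yes = none := by
  cases σ <;> rfl

theorem next_done_cls (σ : List Bool) : mach.next (.done, σ) .cls = some (ost σ, σ) := by
  cases σ <;> rfl

theorem next_done (σ : List Bool) {a : Lt} (h1 : a ≠ .cls) (h2 : a ≠ .yes) :
    mach.next (.done, σ) a = some (.done, σ) := by
  cases a <;> first | exact absurd rfl h1 | exact absurd rfl h2 | (cases σ <;> rfl)

theorem run_append {Q Γ A : Type} (M : RDPDA Q Γ A) (u v : List A) : ∀ c,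
    M.run c (u ++ v) = (M.run c u).bind fun c' => M.run c' v := by
  induction u with
  | nil => intro c; rfl
  | cons a u ih =>
    intro c
    show ((M.next c a).bind fun c' => M.run c' (u ++ v)) =
      (((M.next c a).bind fun c' => M.run c' u).bind fun c' => M.run c' v)
    rw [Option.bind_assoc]
    congr 1
    funext c'
    exact ih c'

theorem run_cons {Q Γ A : Type} (M : RDPDA Q Γ A) (a : A) (v : List A) (c) :
    M.run c (a :: v) = (M.next c a).bind fun c' => M.run c' v := rfl

/-- The flags. -/
def flag (b : Bool) : Lt := if b then .yes else .no

/-- The texts of the rows consist of letters which do not interrupt the skipping. -/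
def Plain (t : List Lt) : Prop := ∀ a ∈ t, a ≠ .cls ∧ a ≠ .yes ∧ a ≠ .no

theorem run_look_plain (σ : List Bool) : ∀ t : List Lt, Plain t →
    mach.run (.look, σ) t = some (.look, σ) := by
  intro t
  induction t with
  | nil => intro _; rfl
  | cons a t ih =>
    intro ht
    rw [run_cons, next_look σ (ht a List.mem_cons_self).1 (ht a List.mem_cons_self).2.1]
    exact ih fun b hb => ht b (List.mem_cons_of_mem _ hb)

theorem run_done_plain (σ : List Bool) : ∀ t : List Lt, Plain t →
    mach.run (.done, σ) t = some (.done, σ) := by
  intro t
  induction t with
  | nil => intro _; rfl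
  | cons a t ih =>
    intro ht
    rw [run_cons, next_done σ (ht a List.mem_cons_self).1 (ht a List.mem_cons_self).2.1]
    exact ih fun b hb => ht b (List.mem_cons_of_mem _ hb)

theorem run_act_plain : ∀ (t : List Lt) (σ : List Bool) (c : St × List Bool), Plain t →
    mach.run (.act, σ) t = some c → c.1 = .act := by
  intro t
  induction t with
  | nil =>
    intro σ c _ h
    have : (St.act, σ) = c := Option.some.inj h
    rw [← this]
  | cons a t ih =>
    intro σ c ht h
    rw [run_cons] at h
    obtain ⟨c', h1, h2⟩ := Option.bind_eq_some_iff.1 h
    obtain ⟨a1, a2, a3⟩ := ht a List.mem_cons_self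
    have ht' : Plain t := fun b hb => ht b (List.mem_cons_of_mem _ hb)
    cases a with
    | push b =>
      rw [next_act_push] at h1
      have := Option.some.inj h1
      subst this
      exact ih _ _ ht' h2
    | pop b =>
      obtain ⟨σ', -, rfl⟩ := (next_act_pop σ b).1 h1
      exact ih _ _ ht' h2
    | opn => rw [next_act_opn] at h1; exact absurd h1 (by simp)
    | cls => exact absurd rfl a1
    | yes => exact absurd rfl a2
    | no => exact absurd rfl a3

section

variable {R : Type} (f : R → Bool) (text : R → List Lt)

/-- The rows of a block. -/
def rows (rs : List R) : List Lt := rs.flatMap fun r => flag (f r) :: text r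

variable {f text}

theorem rows_cons (r : R) (rs : List R) :
    rows f text (r :: rs) = flag (f r) :: (text r ++ rows f text rs) := rfl

theorem run_done_rows (ht : ∀ r, Plain (text r)) (σ : List Bool) : ∀ (rs : List R)
    (c : St × List Bool), mach.run (.done, σ) (rows f text rs ++ [.cls]) = some c ↔
      (∀ r ∈ rs, f r = false) ∧ c = (ost σ, σ) := by
  intro rs
  induction rs with
  | nil =>
    intro c
    show mach.run (.done, σ) [.cls] = some c ↔ _
    rw [run_cons, next_done_cls]
    show some (ost σ, σ) = some c ↔ _
    refine ⟨fun h => ⟨fun r hr => absurd hr List.not_mem_nil, (Option.some.inj h).symm⟩,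
      fun h => by rw [h.2]⟩
  | cons r rs ih =>
    intro c
    rw [rows_cons, List.cons_append, run_cons]
    cases hf : f r with
    | true =>
      have : mach.next (.done, σ) (flag true) = none := next_done_yes σ
      rw [this]
      simp [hf]
    | false =>
      have : mach.next (.done, σ) (flag false) = some (.done, σ) :=
        next_done σ (by decide) (by decide)
      rw [this, Option.bind_some, List.append_assoc, run_append, run_done_plain σ _ (ht r),
        Option.bind_some, ih]
      simp [hf]

theorem run_act_rows (ht : ∀ r, Plain (text r)) (σ : List Bool) (rs : List R)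
    (c : St × List Bool) : mach.run (.act, σ) (rows f text rs ++ [.cls]) = some c ↔
      (∀ r ∈ rs, f r = false) ∧ c = (ost σ, σ) := by
  cases rs with
  | nil =>
    show mach.run (.act, σ) [.cls] = some c ↔ _
    rw [run_cons, next_act_cls]
    show some (ost σ, σ) = some c ↔ _
    refine ⟨fun h => ⟨fun r hr => absurd hr List.not_mem_nil, (Option.some.inj h).symm⟩,
      fun h => by rw [h.2]⟩
  | cons r rs =>
    rw [rows_cons, List.cons_append, run_cons]
    cases hf : f r with
    | true =>
      have : mach.next (.act, σ) (flag true) = none := next_act_yes σ
      rw [this]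
      simp [hf]
    | false =>
      have : mach.next (.act, σ) (flag false) = some (.done, σ) := next_act_no σ
      rw [this, Option.bind_some, List.append_assoc, run_append, run_done_plain σ _ (ht r),
        Option.bind_some, run_done_rows ht]
      simp [hf]

theorem run_look_rows (ht : ∀ r, Plain (text r)) (σ : List Bool) : ∀ (rs : List R)
    (c : St × List Bool), rs.Nodup →
      (mach.run (.look, σ) (rows f text rs ++ [.cls]) = some c ↔
      ∃ r ∈ rs, f r = true ∧ (∀ r' ∈ rs, f r' = true → r' = r) ∧
        ∃ σ', mach.run (.act, σ) (text r) = some (.act, σ') ∧ c = (ost σ', σ')) := by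
  intro rs
  induction rs with
  | nil =>
    intro c _
    show mach.run (.look, σ) [.cls] = some c ↔ _
    rw [run_cons, next_look_cls]
    simp
  | cons r rs ih =>
    intro c hnd
    rw [List.nodup_cons] at hnd
    rw [rows_cons, List.cons_append, run_cons]
    cases hf : f r with
    | false =>
      have : mach.next (.look, σ) (flag false) = some (.look, σ) :=
        next_look σ (by decide) (by decide)
      rw [this, Option.bind_some, List.append_assoc, run_append, run_look_plain σ _ (ht r),
        Option.bind_some, ih c hnd.2]
      constructor
      · rintro ⟨r', h1, h2, h3, h4⟩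
        refine ⟨r', List.mem_cons_of_mem _ h1, h2, fun r'' hr'' hf'' => ?_, h4⟩
        rw [List.mem_cons] at hr''
        rcases hr'' with rfl | hr''
        · rw [hf] at hf''
          exact absurd hf'' (by simp)
        · exact h3 r'' hr'' hf''
      · rintro ⟨r', h1, h2, h3, h4⟩
        rw [List.mem_cons] at h1
        rcases h1 with rfl | h1
        · rw [hf] at h2
          exact absurd h2 (by simp)
        · exact ⟨r', h1, h2, fun r'' hr'' => h3 r'' (List.mem_cons_of_mem _ hr''), h4⟩
    | true =>
      have : mach.next (.look, σ) (flag true) = some (.act, σ) := next_look_yes σ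
      rw [this, Option.bind_some, List.append_assoc, run_append]
      constructor
      · intro h
        obtain ⟨⟨q, σ'⟩, h1, h2⟩ := Option.bind_eq_some_iff.1 h
        have hq : q = .act := run_act_plain _ _ _ (ht r) h1
        subst hq
        rw [run_act_rows ht] at h2
        refine ⟨r, List.mem_cons_self, hf, fun r' hr' hf' => ?_, σ', h1, h2.2⟩
        rw [List.mem_cons] at hr'
        rcases hr' with rfl | hr'
        · rfl
        · rw [h2.1 r' hr'] at hf'
          exact absurd hf' (by simp)
      · rintro ⟨r', h1, h2, h3, σ', h4, h5⟩
        have hrr : r = r' := h3 r List.mem_cons_self hf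
        subst hrr
        rw [h4, Option.bind_some, run_act_rows ht]
        refine ⟨fun r'' hr'' => ?_, h5⟩
        cases hf'' : f r'' with
        | false => rfl
        | true =>
          have := h3 r'' (List.mem_cons_of_mem _ hr'') hf''
          rw [this] at hr''
          exact absurd hr'' hnd.1

end

end Pool.Agent.H561R2.CF
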