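import Pool.Agent.H561R2.CF.Tmpl
import Pool.Agent.H561R2.CF.BP

/-!
# The lower bound for the language
-/

namespace Pool.Agent.H561R2.CF

variable {l h : ℕ}

theorem run_done_no (σ : List Bool) : ∀ k,
    mach.run (.done, σ) (List.replicate k .no ++ [.cls]) = some (ost σ, σ) := by
  intro k
  induction k with
  | zero =>
    show mach.run (.done, σ) [.cls] = _
    rw [run_cons, next_done_cls]
    rfl
  | succ k ih =>
    rw [List.replicate_succ, List.cons_append, run_cons, next_done σ (by decide) (by decide)]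
    exact ih

theorem run_act_no (σ : List Bool) (k : ℕ) :
    mach.run (.act, σ) (List.replicate k .no ++ [.cls]) = some (ost σ, σ) := by
  cases k with
  | zero =>
    show mach.run (.act, σ) [.cls] = _
    rw [run_cons, next_act_cls]
    rfl
  | succ k =>
    rw [List.replicate_succ, List.cons_append, run_cons, next_act_no]
    exact run_done_no σ k

/-- The first block. -/
def pre (l k : ℕ) : List Lt :=
  .opn :: .yes :: (pushes (enc (0 : Vec l)) ++ (List.replicate k .no ++ [.cls]))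

theorem run_pre (k : ℕ) : mach.run (.fin, []) (pre l k) =
    some (ost (enc (0 : Vec l)), enc (0 : Vec l)) := by
  unfold pre
  have h1 : mach.next (.fin, []) .opn = some (.look, []) := rfl
  rw [run_cons, h1, Option.bind_some, run_cons, next_look_yes, Option.bind_some, run_append,
    run_pushes, Option.bind_some, List.append_nil, run_act_no]

theorem mem_language (k : ℕ) (f : Nd h → Row l → Bool) :
    pre l k ++ word h f ∈ mach.language ↔ ∃ z, Rep h f 0 z := by
  constructor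
  · rintro ⟨c, h1, h2⟩
    have h1' : mach.run (.fin, []) (pre l k ++ word h f) = some c := h1
    rw [run_append, run_pre, Option.bind_some, run_word] at h1'
    obtain ⟨a, z, σ', h3, h4, -⟩ := h1'
    obtain ⟨rfl, -⟩ := enc_append_inj (show enc (0 : Vec l) ++ [] = enc a ++ σ' by
      rw [List.append_nil]; exact h4)
    exact ⟨z, h3⟩
  · rintro ⟨z, hz⟩
    refine ⟨(.fin, []), ?_, rfl⟩
    show mach.run (.fin, []) (pre l k ++ word h f) = some (.fin, [])
    rw [run_append, run_pre, Option.bind_some, run_word]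
    exact ⟨0, z, [], hz, (List.append_nil _).symm, rfl⟩

/-- The template of the word. -/
noncomputable def tt (l h k : ℕ) : List (TL (Nd h × Row l)) := fixd (pre l k) ++ tmpl l h id

theorem map_tt (k : ℕ) (F : Nd h × Row l → Bool) :
    (tt l h k).map (eval F) = pre l k ++ word h fun u r => F (u, r) := by
  unfold tt
  rw [List.map_append, map_fixd, map_tmpl]
  rfl

theorem vars_tt (k : ℕ) : vars (tt l h k) = vars (tmpl l h id) := by
  unfold tt
  rw [vars_append, vars_fixd]
  rfl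

open Finset in
open Classical in
theorem lower (l h k : ℕ) : ∃ F : Finset (Fin (tt l h k).length → Lt), F.Nonempty ∧
    (∀ w ∈ F, List.ofFn w ∈ mach.language) ∧
    ∀ (S b h₀ : ℕ) (B : NBP (tt l h k).length Lt S), B.ReadOnce → B.Width b → b < 3 ^ h₀ →
      h₀ ≤ h → (∀ w, B.Accepts w → List.ofFn w ∈ mach.language) →
      (F.filter fun w => B.Accepts w).card ^ 2 * 2 ^ (l * (h + 1 - h₀)) ≤
        S ^ 2 * F.card ^ 2 * 2 ^ (8 * (h + 1 - h₀)) := by
  have huniq : Uniq (tt l h k) := uniq_of_nodup _ (by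
    rw [vars_tt]
    exact nodup_tmpl h id Function.injective_id)
  have hex : ∀ x : Nd h × Row l, ∃ i : Fin (tt l h k).length, (tt l h k).get i = Sum.inr x := by
    intro x
    have h1 : Sum.inr x ∈ tt l h k := by
      rw [← mem_vars, vars_tt, mem_vars_tmpl]
      exact ⟨x.1, rfl⟩
    exact List.mem_iff_get.1 h1
  choose pos hpos using hex
  have hpos' : ∀ (i : Fin (tt l h k).length) (x), (tt l h k).get i = Sum.inr x → i = pos x := by
    intro i x hi
    have e1 : (tt l h k)[(i : ℕ)]? = some (Sum.inr x) := by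
      rw [← hi]
      simp
    have e2 : (tt l h k)[(pos x : ℕ)]? = some (Sum.inr x) := by
      rw [← hpos x]
      simp
    exact Fin.ext (huniq _ _ _ e1 e2)
  let w : (Nd h × Row l → Bool) → Fin (tt l h k).length → Lt :=
    fun F i => eval F ((tt l h k).get i)
  have hw : ∀ F, List.ofFn (w F) = pre l k ++ word h fun u r => F (u, r) := by
    intro F
    rw [← map_tt]
    have : w F = eval F ∘ (tt l h k).get := rfl
    rw [this, ← List.map_ofFn, List.ofFn_get]
  have hacc : ∀ F : Nd h × Row l → Bool, List.ofFn (w F) ∈ mach.language ↔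
      ∃ z : Nd h → Vec l, Good z ∧ ∀ u r, F (u, r) = decide (r = (pv h 0 z u, z u)) := by
    intro F
    rw [hw, mem_language]
    constructor
    · rintro ⟨z, hz⟩
      obtain ⟨-, h1, h2⟩ := (rep_iff h _ _ _).1 hz
      exact ⟨z, h1, h2⟩
    · rintro ⟨z, h1, h2⟩
      exact ⟨z, (rep_iff h _ _ _).2 ⟨zero_dotProduct _, h1, h2⟩⟩
  let Fz : (Nd h → Vec l) → Nd h × Row l → Bool := fun z x =>
    decide (x.2 = (pv h 0 z x.1, z x.1))
  let key : (Nd h → Vec l) → Nd h → Fin (tt l h k).length := fun z u =>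
    pos (u, (pv h 0 z u, z u))
  have hinj : ∀ x y, pos x = pos y → x = y := by
    intro x y hxy
    have h1 := hpos x
    rw [hxy, hpos y] at h1
    exact (Sum.inr.inj h1).symm
  have hwinj : ∀ z z' : Nd h → Vec l, w (Fz z) = w (Fz z') → z = z' := by
    intro z z' hzz
    funext u
    have h1 := congrFun hzz (pos (u, (pv h 0 z u, z u)))
    have h2 : eval (Fz z) ((tt l h k).get (pos (u, (pv h 0 z u, z u)))) =
      eval (Fz z') ((tt l h k).get (pos (u, (pv h 0 z u, z u)))) := h1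
    rw [hpos] at h2
    have h3 : flag (Fz z (u, (pv h 0 z u, z u))) = flag (Fz z' (u, (pv h 0 z u, z u))) := h2
    have h4 : Fz z (u, (pv h 0 z u, z u)) = true := decide_eq_true rfl
    rw [h4] at h3
    have h5 : Fz z' (u, (pv h 0 z u, z u)) = true := by
      cases hc : Fz z' (u, (pv h 0 z u, z u)) with
      | true => rfl
      | false =>
        rw [hc] at h3
        exact absurd h3 (by decide)
    exact (Prod.mk.inj (decide_eq_true_iff.1 h5)).2
  refine ⟨(univ.filter fun z : Nd h → Vec l => Good z).image fun z => w (Fz z), ?_, ?_, ?_⟩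
  · refine ⟨w (Fz fun _ => 0), Finset.mem_image_of_mem _ ?_⟩
    rw [Finset.mem_filter]
    exact ⟨Finset.mem_univ _, fun p c _ => zero_dotProduct _⟩
  · intro v hv
    obtain ⟨z, hz, rfl⟩ := Finset.mem_image.1 hv
    rw [Finset.mem_filter] at hz
    rw [hacc]
    exact ⟨z, hz.2, fun u r => rfl⟩
  intro S b h₀ B hB hwd hb hh hL
  have key2 := NBP.lower_bound (l := l) hB hwd hb hh (fun z => w (Fz z)) key ?_ ?_ ?_ ?_
  · have e1 : ((univ.filter fun z : Nd h → Vec l => Good z).image fun z => w (Fz z)).card =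
        (univ.filter fun z : Nd h → Vec l => Good z).card :=
      Finset.card_image_of_injective _ fun z z' hzz => hwinj z z' hzz
    have e2 : (((univ.filter fun z : Nd h → Vec l => Good z).image fun z => w (Fz z)).filter
        fun w => B.Accepts w).card =
        (univ.filter fun z : Nd h → Vec l => Good z ∧ B.Accepts (w (Fz z))).card := by
      rw [Finset.filter_image, Finset.card_image_of_injective _ fun z z' hzz => hwinj z z' hzz,
        Finset.filter_filter]
    rw [e1, e2]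
    exact key2
  · intro z hz u
    refine ⟨w fun x => if x = (u, (pv h 0 z u, z u)) then false else Fz z x, ?_, ?_⟩
    · intro i hi
      show eval _ _ = eval _ _
      cases hg : (tt l h k).get i with
      | inl c => rfl
      | inr x =>
        show flag (Fz z x) = flag (if x = (u, (pv h 0 z u, z u)) then false else Fz z x)
        rw [if_neg]
        intro hx
        subst hx
        exact hi (hpos' _ _ hg)
    · intro hcon
      obtain ⟨z', -, h2⟩ := (hacc _).1 (hL _ hcon)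
      have h3 := h2 u (pv h 0 z' u, z' u)
      simp only [decide_true] at h3
      split_ifs at h3 with h4
      rw [decide_eq_true_iff] at h3
      simp only at h3
      exact h4 (Prod.ext rfl h3)
  · intro z z' hz hz' A _ hAcc
    have hmix : (fun i => if i ∈ A then w (Fz z) i else w (Fz z') i) =
        w fun x => if pos x ∈ A then Fz z x else Fz z' x := by
      funext i
      show (if i ∈ A then eval _ _ else eval _ _) = eval _ _
      cases hg : (tt l h k).get i with
      | inl c => split_ifs <;> rfl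
      | inr x =>
        have hi := hpos' _ _ hg
        show (if i ∈ A then flag (Fz z x) else flag (Fz z' x)) =
          flag (if pos x ∈ A then Fz z x else Fz z' x)
        rw [← hi]
        split_ifs <;> rfl
    rw [hmix] at hAcc ⊢
    obtain ⟨z'', hz'', h2⟩ := (hacc _).1 (hL _ hAcc)
    refine ⟨z'', hz'', ?_, fun u hu => ?_, fun u hu => ?_⟩
    · congr 1
      funext x
      exact h2 x.1 x.2
    · have h3 := h2 u (pv h 0 z u, z u)
      have hu' : pos (u, (pv h 0 z u, z u)) ∈ A := hu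
      rw [if_pos hu'] at h3
      have h4 : Fz z (u, (pv h 0 z u, z u)) = true := decide_eq_true rfl
      rw [h4] at h3
      have h5 := decide_eq_true_iff.1 h3.symm
      show pos _ = pos _
      rw [h5]
    · have h3 := h2 u (pv h 0 z' u, z' u)
      have hu' : pos (u, (pv h 0 z' u, z' u)) ∉ A := hu
      rw [if_neg hu'] at h3
      have h4 : Fz z' (u, (pv h 0 z' u, z' u)) = true := decide_eq_true rfl
      rw [h4] at h3
      have h5 := decide_eq_true_iff.1 h3.symm
      show pos _ = pos _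
      rw [h5]
  · intro z hz u v huv
    exact (Prod.mk.inj (hinj _ _ huv)).1
  · intro z z' u huv
    exact (Prod.mk.inj (Prod.mk.inj (hinj _ _ huv)).2).2

theorem length_tt (k : ℕ) :
    (tt l h k).length = l + k + 3 + (tmpl l h (id : Nd h → Nd h)).length := by
  unfold tt pre
  rw [List.length_append, length_fixd, List.length_cons, List.length_cons, List.length_append,
    length_pushes, enc_length, List.length_append, List.length_replicate, List.length_singleton]
  omega

/-- Words of every sufficiently large length. -/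
theorem exists_pad {n : ℕ} (hl : 1 ≤ l)
    (hn : l + 3 + 2 * 3 ^ h * (2 ^ l * 2 ^ l * (4 * l + 1) + 2) ≤ n) :
    ∃ k, (tt l h k).length = n := by
  have h1 := length_tmpl hl h (id : Nd h → Nd h)
  refine ⟨n - (l + 3 + (tmpl l h (id : Nd h → Nd h)).length), ?_⟩
  rw [length_tt]
  omega

open Classical in
theorem lower' {n : ℕ} (hl : 1 ≤ l)
    (hn : l + 3 + 2 * 3 ^ h * (2 ^ l * 2 ^ l * (4 * l + 1) + 2) ≤ n) :
    ∃ F : Finset (Fin n → Lt), F.Nonempty ∧ (∀ w ∈ F, List.ofFn w ∈ mach.language) ∧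
    ∀ (S b h₀ : ℕ) (B : NBP n Lt S), B.ReadOnce → B.Width b → b < 3 ^ h₀ →
      h₀ ≤ h → (∀ w, B.Accepts w → List.ofFn w ∈ mach.language) →
      (F.filter fun w => B.Accepts w).card ^ 2 * 2 ^ (l * (h + 1 - h₀)) ≤
        S ^ 2 * F.card ^ 2 * 2 ^ (8 * (h + 1 - h₀)) := by
  obtain ⟨k, hk⟩ := exists_pad hl hn
  subst hk
  exact lower l h k

theorem num1 {l : ℕ} (hl : 30 ≤ l) : 9 * l + 9 ≤ 4 ^ l := by
  induction l, hl using Nat.le_induction with
  | base => norm_num
  | succ l hl ih =>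
    rw [pow_succ]
    omega

theorem num2 {l h N : ℕ} (hl : 30 ≤ l) (hN : 4 * l ≤ N) (hh : 3 ^ h ≤ 2 ^ (N - 4 * l)) :
    l + 3 + 2 * 3 ^ h * (2 ^ l * 2 ^ l * (4 * l + 1) + 2) ≤ 2 ^ N := by
  have h1 := num1 hl
  have h2 : 2 ^ l * 2 ^ l = 4 ^ l := by rw [← mul_pow]; norm_num
  have h3 : 2 ^ N = 2 ^ (N - 4 * l) * (4 ^ l * 4 ^ l) := by
    have : 4 ^ l * 4 ^ l = 2 ^ (4 * l) := by rw [pow_mul, ← mul_pow]; norm_num
    rw [this, ← pow_add]
    congr 1
    omega
  have h4 : 1 ≤ 2 ^ (N - 4 * l) := Nat.one_le_two_pow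
  have h5 : 1 ≤ 4 ^ l := Nat.one_le_pow _ _ (by norm_num)
  rw [h2, h3]
  generalize 2 ^ (N - 4 * l) = P at hh h4 ⊢
  have h6 : 1 ≤ P * 4 ^ l := Nat.mul_pos h4 h5
  calc l + 3 + 2 * 3 ^ h * (4 ^ l * (4 * l + 1) + 2)
      ≤ l + 3 + 2 * P * (4 ^ l * (4 * l + 1) + 2 * 4 ^ l) := by gcongr; omega
    _ = (l + 3) * 1 + P * 4 ^ l * (8 * l + 6) := by ring
    _ ≤ (l + 3) * (P * 4 ^ l) + P * 4 ^ l * (8 * l + 6) := by gcongr
    _ = P * 4 ^ l * (9 * l + 9) := by ring
    _ ≤ P * 4 ^ l * 4 ^ l := Nat.mul_le_mul_left _ h1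
    _ = _ := by ring

theorem num3 {b h N l k n : ℕ} (hk : 1 ≤ k) (hN : 240 * k ≤ N) (hl : l = N / (8 * k))
    (hn : n < 2 ^ (N + 1)) (hn0 : n ≠ 0) (hb : b ^ k ≤ n ^ (k - 1))
    (hh : h = Nat.log 3 (2 ^ (N - 4 * l))) : Nat.log 3 b + 1 + l ≤ h := by
  have h8 : 8 * k * l ≤ N := by rw [hl]; exact Nat.mul_div_le _ _
  rw [hh]
  refine Nat.le_log_of_pow_le (by norm_num) ?_
  have h1 : 3 ^ Nat.log 3 b ≤ b + 1 := by
    rcases Nat.eq_zero_or_pos b with rfl | hb0
    · simp
    · exact (Nat.pow_log_le_self 3 (by omega)).trans (by omega)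
  have h2 : (b + 1) ^ k ≤ 2 ^ k * n ^ (k - 1) := by
    rcases Nat.eq_zero_or_pos b with rfl | hb0
    · rw [zero_add, one_pow]
      exact Nat.mul_pos (by positivity) (by positivity)
    · calc (b + 1) ^ k ≤ (2 * b) ^ k := Nat.pow_le_pow_left (by omega) k
        _ = 2 ^ k * b ^ k := mul_pow _ _ _
        _ ≤ _ := Nat.mul_le_mul_left _ hb
  have h3 : (3 ^ (Nat.log 3 b + 1 + l)) ^ k ≤ (2 ^ (N - 4 * l)) ^ k := by
    calc (3 ^ (Nat.log 3 b + 1 + l)) ^ k = (3 ^ Nat.log 3 b * 3 * 3 ^ l) ^ k := by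
          rw [pow_add, pow_add, pow_one]
      _ ≤ ((b + 1) * 4 * 4 ^ l) ^ k := by gcongr <;> norm_num
      _ = (b + 1) ^ k * (4 ^ k * (4 ^ l) ^ k) := by rw [mul_pow, mul_pow]; ring
      _ ≤ (2 ^ k * n ^ (k - 1)) * (4 ^ k * (4 ^ l) ^ k) := Nat.mul_le_mul_right _ h2
      _ ≤ (2 ^ k * (2 ^ (N + 1)) ^ (k - 1)) * (4 ^ k * (4 ^ l) ^ k) := by
          gcongr
      _ = 2 ^ (k + (N + 1) * (k - 1) + (2 * k + 2 * l * k)) := by
          have e1 : (4 : ℕ) ^ k = 2 ^ (2 * k) := by rw [pow_mul]; norm_num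
          have e2 : ((4 : ℕ) ^ l) ^ k = 2 ^ (2 * l * k) := by
            rw [show (4 : ℕ) = 2 ^ 2 by norm_num, ← pow_mul, ← pow_mul]
            congr 1
            ring
          rw [e1, e2, ← pow_mul, ← pow_add, ← pow_add, ← pow_add]
      _ ≤ 2 ^ ((N - 4 * l) * k) := by
          refine Nat.pow_le_pow_right (by norm_num) ?_
          obtain ⟨j, rfl⟩ : ∃ j, k = j + 1 := ⟨k - 1, by omega⟩
          have e3 : (N - 4 * l) * (j + 1) = N * (j + 1) - 4 * l * (j + 1) := Nat.sub_mul _ _ _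
          rw [e3, Nat.add_sub_cancel]
          have e4 : N * (j + 1) = N * j + N := by ring
          have e5 : (N + 1) * j = N * j + j := by ring
          have e6 : 8 * (j + 1) * l = 8 * (l * (j + 1)) := by ring
          have e7 : 4 * l * (j + 1) = 4 * (l * (j + 1)) := by ring
          have e8 : 2 * l * (j + 1) = 2 * (l * (j + 1)) := by ring
          rw [e4, e5, e7, e8]
          rw [e6] at h8
          omega
      _ = (2 ^ (N - 4 * l)) ^ k := pow_mul _ _ _
  exact (Nat.pow_le_pow_iff_left (by omega)).1 h3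

open Classical in
/-- **The lower bound.** -/
theorem main {k n : ℕ} (hk : 1 ≤ k) (hn : 240 * k ≤ Nat.log 2 n) :
    ∃ F : Finset (Fin n → Lt), F.Nonempty ∧ (∀ w ∈ F, List.ofFn w ∈ mach.language) ∧
    ∀ (S b : ℕ) (B : NBP n Lt S), B.ReadOnce → B.Width b → b ^ k ≤ n ^ (k - 1) →
      (∀ w, B.Accepts w → List.ofFn w ∈ mach.language) →
      2 ^ ((Nat.log 2 n) ^ 2 / (200 * k ^ 2)) * (F.filter fun w => B.Accepts w).card ≤
        S * F.card := by
  set N := Nat.log 2 n with hN
  have hn0 : n ≠ 0 := by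
    rintro rfl
    rw [hN] at hn
    simp only [Nat.log_zero_right] at hn
    omega
  have hNn : 2 ^ N ≤ n := Nat.pow_log_le_self 2 hn0
  have hnN : n < 2 ^ (N + 1) := Nat.lt_pow_succ_log_self (by norm_num) n
  obtain ⟨l, hl⟩ : ∃ l, l = N / (8 * k) := ⟨_, rfl⟩
  have h8 : 8 * k * l ≤ N := by rw [hl]; exact Nat.mul_div_le _ _
  have h9 : N < 8 * k * (l + 1) := by
    rw [hl]
    exact Nat.lt_mul_div_succ _ (by omega)
  have hl30 : 30 ≤ l := by
    rw [hl, Nat.le_div_iff_mul_le (by omega)]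
    linarith
  have h4l : 4 * l ≤ N := by nlinarith
  obtain ⟨h, hh⟩ : ∃ h, h = Nat.log 3 (2 ^ (N - 4 * l)) := ⟨_, rfl⟩
  have h3h : 3 ^ h ≤ 2 ^ (N - 4 * l) := by
    rw [hh]
    exact Nat.pow_log_le_self 3 (by positivity)
  obtain ⟨F, hF1, hF2, hF3⟩ := lower' (l := l) (h := h) (n := n) (by omega)
    ((num2 hl30 h4l h3h).trans hNn)
  refine ⟨F, hF1, hF2, fun S b B hB hwd hb hL => ?_⟩
  have h10 := num3 hk hn hl hnN hn0 hb hh
  have key := hF3 S b (Nat.log 3 b + 1) B hB hwd (Nat.lt_pow_succ_log_self (by norm_num) b)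
    (by omega) hL
  obtain ⟨M, hM⟩ : ∃ M, M = h + 1 - (Nat.log 3 b + 1) := ⟨_, rfl⟩
  rw [← hM] at key
  have hMl : l ≤ M := by omega
  generalize (F.filter fun w => B.Accepts w).card = a at key ⊢
  generalize F.card = f at key ⊢
  obtain ⟨E, hE⟩ : ∃ E, E = N ^ 2 / (200 * k ^ 2) := ⟨_, rfl⟩
  rw [← hE]
  have h11 : 2 * E ≤ (l - 8) * M := by
    have e1 : 200 * k ^ 2 * E ≤ N ^ 2 := by rw [hE]; exact Nat.mul_div_le _ _
    have e2 : N ^ 2 ≤ (8 * k * (l + 1)) ^ 2 := Nat.pow_le_pow_left h9.le 2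
    have e3 : k ^ 2 * (200 * E) ≤ k ^ 2 * (64 * (l + 1) ^ 2) := by
      calc k ^ 2 * (200 * E) = 200 * k ^ 2 * E := by ring
        _ ≤ _ := e1.trans e2
        _ = _ := by ring
    have e4 : 200 * E ≤ 64 * (l + 1) ^ 2 := Nat.le_of_mul_le_mul_left e3 (by positivity)
    have e5 : (l - 8) * l ≤ (l - 8) * M := Nat.mul_le_mul_left _ hMl
    obtain ⟨j, rfl⟩ : ∃ j, l = j + 30 := ⟨l - 30, by omega⟩
    have e6 : j + 30 - 8 = j + 22 := by omega
    rw [e6] at e5 ⊢
    nlinarith
  have h12 : (2 ^ E * a) ^ 2 ≤ (S * f) ^ 2 := by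
    have e1 : l * M = (l - 8) * M + 8 * M := by
      rw [← add_mul]
      congr 1
      omega
    rw [e1, pow_add] at key
    have e2 : (a ^ 2 * 2 ^ ((l - 8) * M)) * 2 ^ (8 * M) ≤ (S ^ 2 * f ^ 2) * 2 ^ (8 * M) := by
      calc (a ^ 2 * 2 ^ ((l - 8) * M)) * 2 ^ (8 * M) =
          a ^ 2 * (2 ^ ((l - 8) * M) * 2 ^ (8 * M)) := by ring
        _ ≤ _ := key
    have e3 := Nat.le_of_mul_le_mul_right e2 (by positivity)
    calc (2 ^ E * a) ^ 2 = a ^ 2 * 2 ^ (2 * E) := by rw [mul_pow, ← pow_mul]; ring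
      _ ≤ a ^ 2 * 2 ^ ((l - 8) * M) :=
          Nat.mul_le_mul_left _ (Nat.pow_le_pow_right (by norm_num) h11)
      _ ≤ S ^ 2 * f ^ 2 := e3
      _ = (S * f) ^ 2 := (mul_pow _ _ _).symm
  exact (Nat.pow_le_pow_iff_left (by norm_num)).1 h12

end Pool.Agent.H561R2.CF
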