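import Mathlib

/-!
# Real-time deterministic pushdown automata
-/

namespace Pool.Agent.H561R2.CF

/-- A real-time deterministic one-way pushdown automaton with states `Q`, stack symbols `Γ` and
input letters `A`. In each step it reads the next input letter and the topmost stack symbol (`none`
if the stack is empty), and either stops (`none`) or enters a new state and replaces the topmost
stack symbol by a word. It has no moves without input. -/
structure RDPDA (Q Γ A : Type) where
  start : Q
  final : Set Q
  step : Q → Option Γ → A → Option (Q × List Γ)

variable {Q Γ A : Type}

/-- One step; a configuration consists of the state and the stack (the top comes first). -/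
def RDPDA.next (M : RDPDA Q Γ A) (c : Q × List Γ) (a : A) : Option (Q × List Γ) :=
  (M.step c.1 c.2.head? a).map fun p => (p.1, p.2 ++ c.2.tail)

/-- The computation on a word. -/
def RDPDA.run (M : RDPDA Q Γ A) : Q × List Γ → List A → Option (Q × List Γ)
  | c, [] => some c
  | c, a :: w => (M.next c a).bind fun c' => M.run c' w

/-- The language accepted by final states, starting with the empty stack. -/
def RDPDA.language (M : RDPDA Q Γ A) : Language A :=
  {w | ∃ c, M.run (M.start, []) w = some c ∧ c.1 ∈ M.final}

end Pool.Agent.H561R2.CF
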