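import Pool.Agent.H561R2.CF.Word

/-!
# Templates of the words
-/

namespace Pool.Agent.H561R2.CF

variable {l : ℕ} {V X : Type}

/-- A letter of a template: a fixed letter or a flag. -/
abbrev TL (X : Type) : Type := Lt ⊕ X

/-- Inserting the flags. -/
def eval (F : X → Bool) : TL X → Lt := Sum.elim id fun x => flag (F x)

/-- Every flag occurs at most once. -/
def Uniq (t : List (TL X)) : Prop :=
  ∀ (i j : ℕ) (x : X), t[i]? = some (Sum.inr x) → t[j]? = some (Sum.inr x) → i = j

/-- The flags in a template. -/
def vars (t : List (TL X)) : List X := t.filterMap Sum.getRight?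

theorem mem_vars {t : List (TL X)} {x : X} : x ∈ vars t ↔ Sum.inr x ∈ t := by
  unfold vars
  rw [List.mem_filterMap]
  constructor
  · rintro ⟨a, h1, h2⟩
    rw [Sum.getRight?_eq_some_iff] at h2
    rw [← h2]
    exact h1
  · intro h
    exact ⟨_, h, rfl⟩

theorem uniq_of_nodup : ∀ t : List (TL X), (vars t).Nodup → Uniq t := by
  intro t
  induction t with
  | nil =>
    intro _ i j x h
    simp at h
  | cons a t ih =>
    intro hnd i j x hi hj
    have hnd' : (vars t).Nodup := by
      cases a with
      | inl c => exact hnd
      | inr y => exact (List.nodup_cons.1 (show (y :: vars t).Nodup from hnd)).2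
    have haux : ∀ k : ℕ, a = Sum.inr x → t[k]? ≠ some (Sum.inr x) := by
      intro k ha hk
      subst ha
      exact (List.nodup_cons.1 (show (x :: vars t).Nodup from hnd)).1
        (mem_vars.2 (List.mem_of_getElem? hk))
    cases i with
    | zero =>
      rw [List.getElem?_cons_zero] at hi
      have ha := Option.some.inj hi
      cases j with
      | zero => rfl
      | succ j =>
        rw [List.getElem?_cons_succ] at hj
        exact absurd hj (haux j ha)
    | succ i =>
      rw [List.getElem?_cons_succ] at hi
      cases j with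
      | zero =>
        rw [List.getElem?_cons_zero] at hj
        exact absurd hi (haux i (Option.some.inj hj))
      | succ j =>
        rw [List.getElem?_cons_succ] at hj
        rw [ih hnd' i j x hi hj]

theorem vars_append (s t : List (TL X)) : vars (s ++ t) = vars s ++ vars t :=
  List.filterMap_append

/-- Fixed letters. -/
def fixd (t : List Lt) : List (TL X) := t.map Sum.inl

theorem vars_fixd (t : List Lt) : vars (fixd (X := X) t) = [] := by
  unfold vars fixd
  rw [List.filterMap_map]
  exact List.filterMap_eq_nil_iff.2 fun a _ => rfl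

theorem map_fixd (F : X → Bool) (t : List Lt) : (fixd t).map (eval F) = t := by
  unfold fixd
  rw [List.map_map]
  exact List.map_id _

/-- The template of a row. -/
def tRow (u : V) (text : Row l → List Lt) (r : Row l) : List (TL (V × Row l)) :=
  Sum.inr (u, r) :: fixd (text r)

/-- The template of a block. -/
noncomputable def tBlock (u : V) (text : Row l → List Lt) : List (TL (V × Row l)) :=
  fixd [.opn] ++ ((allRows l).flatMap (tRow u text) ++ fixd [.cls])

theorem map_tRows (u : V) (text : Row l → List Lt) (F : V × Row l → Bool) :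
    ∀ rs : List (Row l), (rs.flatMap (tRow u text)).map (eval F) =
      rows (fun r => F (u, r)) text rs := by
  intro rs
  induction rs with
  | nil => rfl
  | cons r rs ih =>
    rw [List.flatMap_cons, List.map_append, ih, rows_cons]
    unfold tRow
    rw [List.map_cons, map_fixd]
    rfl

theorem map_tBlock (u : V) (text : Row l → List Lt) (F : V × Row l → Bool) :
    (tBlock u text).map (eval F) = block text fun r => F (u, r) := by
  unfold tBlock block
  rw [List.map_append, List.map_append, map_fixd, map_fixd, map_tRows]
  rfl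

theorem vars_tRows (u : V) (text : Row l → List Lt) : ∀ rs : List (Row l),
    vars (rs.flatMap (tRow u text)) = rs.map fun r => (u, r) := by
  intro rs
  induction rs with
  | nil => rfl
  | cons r rs ih =>
    rw [List.flatMap_cons, vars_append, ih, List.map_cons]
    have : vars (tRow u text r) = [(u, r)] := by
      show (u, r) :: vars (fixd (text r)) = _
      rw [vars_fixd]
    rw [this]
    rfl

theorem vars_tBlock (u : V) (text : Row l → List Lt) :
    vars (tBlock u text) = (allRows l).map fun r => (u, r) := by
  unfold tBlock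
  rw [vars_append, vars_append, vars_fixd, vars_fixd, vars_tRows]
  simp

/-- The template of the word. -/
noncomputable def tmpl (l : ℕ) : (h : ℕ) → (Nd h → V) → List (TL (V × Row l))
  | 0, e => tBlock (e (rt 0)) leafText
  | h + 1, e => tBlock (e (rt (h + 1))) nodeText ++ (tmpl l h (fun u => e (sub 0 u)) ++
      (tmpl l h (fun u => e (sub 1 u)) ++ tmpl l h (fun u => e (sub 2 u))))

theorem map_tmpl (F : V × Row l → Bool) : ∀ (h : ℕ) (e : Nd h → V),
    (tmpl l h e).map (eval F) = word h fun u r => F (e u, r) := by
  intro h
  induction h with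
  | zero =>
    intro e
    exact map_tBlock _ _ _
  | succ h ih =>
    intro e
    show (tBlock (e (rt (h + 1))) nodeText ++ (tmpl l h (fun u => e (sub 0 u)) ++
      (tmpl l h (fun u => e (sub 1 u)) ++ tmpl l h (fun u => e (sub 2 u))))).map (eval F) = _
    rw [List.map_append, List.map_append, List.map_append, ih, ih, ih, map_tBlock]
    rfl

theorem mem_vars_tmpl : ∀ (h : ℕ) (e : Nd h → V) (x : V × Row l),
    x ∈ vars (tmpl l h e) ↔ ∃ u, e u = x.1 := by
  intro h
  induction h with
  | zero =>
    intro e x
    show x ∈ vars (tBlock (e (rt 0)) leafText) ↔ _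
    rw [vars_tBlock, List.mem_map]
    constructor
    · rintro ⟨r, -, rfl⟩
      exact ⟨_, rfl⟩
    · rintro ⟨u, hu⟩
      exact ⟨x.2, mem_allRows _, Prod.ext hu rfl⟩
  | succ h ih =>
    intro e x
    show x ∈ vars (tBlock (e (rt (h + 1))) nodeText ++ (tmpl l h (fun u => e (sub 0 u)) ++
      (tmpl l h (fun u => e (sub 1 u)) ++ tmpl l h (fun u => e (sub 2 u))))) ↔ _
    rw [vars_append, vars_append, vars_append, List.mem_append, List.mem_append, List.mem_append,
      ih, ih, ih, vars_tBlock, List.mem_map]
    constructor
    · rintro (⟨r, -, rfl⟩ | ⟨u, hu⟩ | ⟨u, hu⟩ | ⟨u, hu⟩)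
      · exact ⟨_, rfl⟩
      · exact ⟨_, hu⟩
      · exact ⟨_, hu⟩
      · exact ⟨_, hu⟩
    · rintro ⟨u, hu⟩
      rcases Nd.cases' u with rfl | ⟨i, v, rfl⟩
      · exact Or.inl ⟨x.2, mem_allRows _, Prod.ext hu rfl⟩
      · refine Or.inr ?_
        fin_cases i
        · exact Or.inl ⟨v, hu⟩
        · exact Or.inr (Or.inl ⟨v, hu⟩)
        · exact Or.inr (Or.inr ⟨v, hu⟩)

theorem nodup_tmpl : ∀ (h : ℕ) (e : Nd h → V), Function.Injective e →
    (vars (tmpl l h e)).Nodup := by
  have hb : ∀ (u : V) (text : Row l → List Lt), (vars (tBlock u text)).Nodup := by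
    intro u text
    rw [vars_tBlock]
    exact nodup_allRows.map fun r r' hr => (Prod.mk.inj hr).2
  intro h
  induction h with
  | zero =>
    intro e _
    exact hb _ _
  | succ h ih =>
    intro e he
    have hsub : ∀ i : Fin 3, Function.Injective fun u => e (sub i u) := fun i u v huv =>
      (sub_inj.1 (he huv)).2
    have hdis : ∀ i j : Fin 3, i ≠ j → List.Disjoint (vars (tmpl l h fun u => e (sub i u)))
        (vars (tmpl l h fun u => e (sub j u))) := by
      intro i j hij x hx hy
      rw [mem_vars_tmpl] at hx hy
      obtain ⟨u, hu⟩ := hx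
      obtain ⟨v, hv⟩ := hy
      exact hij (sub_inj.1 (he (hu.trans hv.symm))).1
    show (vars (tBlock (e (rt (h + 1))) nodeText ++ (tmpl l h (fun u => e (sub 0 u)) ++
      (tmpl l h (fun u => e (sub 1 u)) ++ tmpl l h (fun u => e (sub 2 u)))))).Nodup
    rw [vars_append, vars_append, vars_append, List.nodup_append', List.nodup_append',
      List.nodup_append']
    refine ⟨hb _ _, ⟨ih _ (hsub 0), ⟨ih _ (hsub 1), ih _ (hsub 2), hdis 1 2 (by decide)⟩, ?_⟩, ?_⟩
    · rw [List.disjoint_append_right]
      exact ⟨hdis 0 1 (by decide), hdis 0 2 (by decide)⟩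
    · intro x hx hy
      rw [vars_tBlock, List.mem_map] at hx
      obtain ⟨r, -, rfl⟩ := hx
      rw [List.mem_append, List.mem_append, mem_vars_tmpl, mem_vars_tmpl, mem_vars_tmpl] at hy
      rcases hy with ⟨u, hu⟩ | ⟨u, hu⟩ | ⟨u, hu⟩ <;> exact sub_ne_rt _ _ (he hu)

theorem length_fixd (t : List Lt) : (fixd (X := X) t).length = t.length := List.length_map _

theorem length_pops (s : List Bool) : (pops s).length = s.length := List.length_map _

theorem length_pushes (s : List Bool) : (pushes s).length = s.length := by
  unfold pushes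
  rw [List.length_map, List.length_reverse]

theorem length_leaf (hl : 1 ≤ l) (r : Row l) : (leafText r).length ≤ 4 * l := by
  unfold leafText
  split_ifs
  · rw [length_pops, enc_length]
    omega
  · rw [List.length_singleton]
    omega

theorem length_node (hl : 1 ≤ l) (r : Row l) : (nodeText r).length ≤ 4 * l := by
  unfold nodeText
  split_ifs
  · rw [List.length_append, List.length_append, List.length_append, length_pops, length_pushes,
      enc_length, enc_length]
    omega
  · rw [List.length_singleton]
    omega

theorem length_tRows (u : V) {text : Row l → List Lt} {k : ℕ}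
    (ht : ∀ r, (text r).length ≤ k) : ∀ rs : List (Row l),
    (rs.flatMap (tRow u text)).length ≤ rs.length * (k + 1) := by
  intro rs
  induction rs with
  | nil => simp
  | cons r rs ih =>
    rw [List.flatMap_cons, List.length_append, List.length_cons]
    unfold tRow at ih ⊢
    rw [List.length_cons, length_fixd]
    have := ht r
    nlinarith

theorem length_tBlock (u : V) {text : Row l → List Lt} {k : ℕ}
    (ht : ∀ r, (text r).length ≤ k) :
    (tBlock u text).length ≤ 2 ^ l * 2 ^ l * (k + 1) + 2 := by
  unfold tBlock
  rw [List.length_append, List.length_append, length_fixd, length_fixd]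
  have := length_tRows u ht (allRows l)
  rw [length_allRows] at this
  simp only [List.length_singleton]
  omega

theorem length_tmpl (hl : 1 ≤ l) : ∀ (h : ℕ) (e : Nd h → V),
    (tmpl l h e).length + (2 ^ l * 2 ^ l * (4 * l + 1) + 2) ≤
      2 * 3 ^ h * (2 ^ l * 2 ^ l * (4 * l + 1) + 2) := by
  intro h
  induction h with
  | zero =>
    intro e
    have := length_tBlock (e (rt 0)) (length_leaf hl)
    show (tBlock (e (rt 0)) leafText).length + _ ≤ _
    rw [pow_zero]
    omega
  | succ h ih =>
    intro e
    have h1 := length_tBlock (e (rt (h + 1))) (length_node hl)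
    have h2 := fun i : Fin 3 => ih fun u => e (sub i u)
    show (tBlock (e (rt (h + 1))) nodeText ++ (tmpl l h (fun u => e (sub 0 u)) ++
      (tmpl l h (fun u => e (sub 1 u)) ++ tmpl l h (fun u => e (sub 2 u))))).length + _ ≤ _
    rw [List.length_append, List.length_append, List.length_append]
    have h20 := h2 0
    have h21 := h2 1
    have h22 := h2 2
    have h3 : 2 * 3 ^ (h + 1) * (2 ^ l * 2 ^ l * (4 * l + 1) + 2) =
        3 * (2 * 3 ^ h * (2 ^ l * 2 ^ l * (4 * l + 1) + 2)) := by ring
    rw [h3]
    generalize 2 ^ l * 2 ^ l * (4 * l + 1) + 2 = K at *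
    omega

end Pool.Agent.H561R2.CF
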