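import Mathlib

/-!
# Complete ternary trees and orderings of their nodes
-/

namespace Pool.Agent.H561R2.CF

/-- The nodes of the complete ternary tree of height `h`. -/
def Nd : ℕ → Type
  | 0 => Unit
  | h + 1 => Option (Fin 3 × Nd h)

instance Nd.fintype : (h : ℕ) → Fintype (Nd h)
  | 0 => inferInstanceAs (Fintype Unit)
  | h + 1 => by
    have := Nd.fintype h
    exact inferInstanceAs (Fintype (Option (Fin 3 × Nd h)))

instance Nd.decEq : (h : ℕ) → DecidableEq (Nd h)
  | 0 => inferInstanceAs (DecidableEq Unit)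
  | h + 1 => by
    have := Nd.decEq h
    exact inferInstanceAs (DecidableEq (Option (Fin 3 × Nd h)))

/-- The root. -/
def rt : (h : ℕ) → Nd h
  | 0 => ()
  | _ + 1 => none

/-- The copy of a node in the `i`-th subtree. -/
def sub {h : ℕ} (i : Fin 3) (x : Nd h) : Nd (h + 1) := some (i, x)

theorem sub_inj {h : ℕ} {i j : Fin 3} {x y : Nd h} : sub i x = sub j y ↔ i = j ∧ x = y := by
  unfold sub
  constructor
  · intro e
    have := Option.some.inj e
    exact ⟨congrArg Prod.fst this, congrArg Prod.snd this⟩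
  · rintro ⟨rfl, rfl⟩
    rfl

theorem sub_ne_rt {h : ℕ} (i : Fin 3) (x : Nd h) : sub i x ≠ rt (h + 1) := fun e => by
  cases e

theorem Nd.cases' {h : ℕ} : ∀ x : Nd (h + 1), x = rt (h + 1) ∨ ∃ i y, x = sub i y
  | none => Or.inl rfl
  | some (i, x) => Or.inr ⟨i, x, rfl⟩

/-- `Par p c` says that `p` is the parent of `c`. -/
inductive Par : (h : ℕ) → Nd h → Nd h → Prop
  | root (h : ℕ) (i : Fin 3) : Par (h + 1) (rt (h + 1)) (sub i (rt h))
  | sub {h : ℕ} (i : Fin 3) {x y : Nd h} : Par h x y → Par (h + 1) (sub i x) (sub i y)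

/-- Adjacency. -/
def Adj (h : ℕ) (x y : Nd h) : Prop := Par h x y ∨ Par h y x

theorem Adj.sub {h : ℕ} (i : Fin 3) {x y : Nd h} (e : Adj h x y) :
    Adj (h + 1) (sub i x) (sub i y) := e.imp (Par.sub i) (Par.sub i)

/-- Between two nodes with different colours there is an edge with different colours. -/
theorem exists_edge : ∀ (h : ℕ) (P : Nd h → Prop) (a b : Nd h), P a → ¬P b →
    ∃ x y, Adj h x y ∧ P x ∧ ¬P y := by
  intro h
  induction h with
  | zero =>
    intro P a b ha hb
    exact absurd ha hb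
  | succ h ih =>
    intro P a b ha hb
    by_cases hr : P (rt (h + 1))
    · rcases Nd.cases' b with rfl | ⟨i, x, rfl⟩
      · exact absurd hr hb
      · by_cases hi : P (sub i (rt h))
        · obtain ⟨u, v, huv, hu, hv⟩ := ih (fun u => P (sub i u)) _ _ hi hb
          exact ⟨_, _, huv.sub i, hu, hv⟩
        · exact ⟨_, _, Or.inl (.root h i), hr, hi⟩
    · rcases Nd.cases' a with rfl | ⟨i, x, rfl⟩
      · exact absurd ha hr
      · by_cases hi : P (sub i (rt h))
        · exact ⟨_, _, Or.inr (.root h i), hi, hr⟩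
        · obtain ⟨u, v, huv, hu, hv⟩ := ih (fun u => P (sub i u)) _ _ ha hi
          exact ⟨_, _, huv.sub i, hu, hv⟩

/-- A version which avoids a subtree. -/
theorem exists_edge_avoid {h : ℕ} (P : Nd (h + 1) → Prop) {i j k : Fin 3} (hij : i ≠ k)
    (hjk : j ≠ k) {a b : Nd h} (ha : P (sub i a)) (hb : ¬P (sub j b)) :
    ∃ x y, Adj (h + 1) x y ∧ P x ∧ ¬P y ∧ (∀ z, x ≠ sub k z) ∧ ∀ z, y ≠ sub k z := by
  have hn : ∀ (l : Fin 3), l ≠ k → ∀ (u z : Nd h), sub l u ≠ sub k z := by
    intro l hl u z e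
    exact hl (sub_inj.1 e).1
  have hr : ∀ z : Nd h, rt (h + 1) ≠ sub k z := fun z e => sub_ne_rt k z e.symm
  by_cases h0 : P (rt (h + 1))
  · by_cases h1 : P (sub j (rt h))
    · obtain ⟨u, v, huv, hu, hv⟩ := exists_edge h (fun u => P (sub j u)) _ _ h1 hb
      exact ⟨_, _, huv.sub j, hu, hv, hn j hjk u, hn j hjk v⟩
    · exact ⟨_, _, Or.inl (.root h j), h0, h1, hr, hn j hjk _⟩
  · by_cases h1 : P (sub i (rt h))
    · exact ⟨_, _, Or.inr (.root h i), h1, h0, hn i hij _, hr⟩
    · obtain ⟨u, v, huv, hu, hv⟩ := exists_edge h (fun u => P (sub i u)) _ _ ha h1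
      exact ⟨_, _, huv.sub i, hu, hv, hn i hij u, hn i hij v⟩

/-- Disjoint edges which leave the set `P`. -/
def Crossing {h : ℕ} (P : Nd h → Prop) (l : List (Nd h × Nd h)) : Prop :=
  (∀ e ∈ l, Adj h e.1 e.2 ∧ P e.1 ∧ ¬P e.2) ∧ (l.map Prod.fst).Nodup ∧ (l.map Prod.snd).Nodup

theorem card_nd : ∀ h, 3 ^ h ≤ Fintype.card (Nd h) := by
  intro h
  induction h with
  | zero =>
    have : Fintype.card (Nd 0) = 1 := rfl
    rw [this, pow_zero]
  | succ h ih =>
    have h1 : Fintype.card (Nd (h + 1)) = Fintype.card (Option (Fin 3 × Nd h)) :=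
      Fintype.card_congr (Equiv.refl _)
    rw [h1, Fintype.card_option, Fintype.card_prod, Fintype.card_fin, pow_succ]
    omega

/-- A process which adds at most `b` nodes in each step. -/
structure Process {h : ℕ} (b : ℕ) (U : ℕ → Nd h → Prop) : Prop where
  zero : ∀ x, ¬U 0 x
  full : ∃ N, ∀ x, U N x
  mono : ∀ t x, U t x → U (t + 1) x
  step : ∀ t (s : Finset (Nd h)), (∀ x ∈ s, ¬U t x ∧ U (t + 1) x) → s.card ≤ b

theorem Process.mono' {h b : ℕ} {U : ℕ → Nd h → Prop} (hU : Process b U) {s t : ℕ} (hst : s ≤ t)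
    {x : Nd h} (hx : U s x) : U t x := by
  induction hst with
  | refl => exact hx
  | step _ ih => exact hU.mono _ _ ih

theorem Process.sub {h b : ℕ} {U : ℕ → Nd (h + 1) → Prop} (hU : Process b U) (i : Fin 3) :
    Process b fun t x => U t (sub i x) where
  zero x := hU.zero _
  full := by
    obtain ⟨N, hN⟩ := hU.full
    exact ⟨N, fun x => hN _⟩
  mono t x := hU.mono t _
  step t s hs := by
    have h1 := hU.step t (s.image (CF.sub i)) (fun x hx => by
      obtain ⟨y, hy, rfl⟩ := Finset.mem_image.1 hx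
      exact hs y hy)
    rwa [Finset.card_image_of_injective _ fun x y hxy => (sub_inj.1 hxy).2] at h1

/-- Sorting three numbers. -/
theorem sort3 (t : Fin 3 → ℕ) : ∃ i j k : Fin 3, i ≠ k ∧ j ≠ k ∧ t i ≤ t k ∧ t k ≤ t j := by
  rcases le_total (t 0) (t 1) with h1 | h1 <;> rcases le_total (t 1) (t 2) with h2 | h2 <;>
    rcases le_total (t 0) (t 2) with h3 | h3
  · exact ⟨0, 2, 1, by decide, by decide, h1, h2⟩
  · exact ⟨0, 2, 1, by decide, by decide, h1, h2⟩
  · exact ⟨0, 1, 2, by decide, by decide, h3, h2⟩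
  · exact ⟨2, 1, 0, by decide, by decide, h3, h1⟩
  · exact ⟨1, 2, 0, by decide, by decide, h1, h3⟩
  · exact ⟨1, 0, 2, by decide, by decide, h2, h3⟩
  · exact ⟨2, 0, 1, by decide, by decide, h2, h1⟩
  · exact ⟨2, 0, 1, by decide, by decide, h2, h1⟩

/-- At some time the set is neither empty nor full. -/
theorem Process.exists_one {h b : ℕ} (hb : b < 3 ^ h) {U : ℕ → Nd h → Prop}
    (hU : Process b U) : ∃ (t : ℕ) (e : Nd h × Nd h), Adj h e.1 e.2 ∧ U t e.1 ∧ ¬U t e.2 := by
  classical
  have hex : ∃ t, ∃ x, U t x := by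
    obtain ⟨N, hN⟩ := hU.full
    exact ⟨N, rt h, hN _⟩
  obtain ⟨x, hx⟩ := Nat.find_spec hex
  have h0 : Nat.find hex ≠ 0 := by
    intro h0
    rw [h0] at hx
    exact hU.zero x hx
  obtain ⟨s, hs⟩ := Nat.exists_eq_succ_of_ne_zero h0
  have hprev : ∀ y, ¬U s y := by
    intro y hy
    exact Nat.find_min hex (m := s) (by omega) ⟨y, hy⟩
  rw [hs] at hx
  obtain ⟨y, hy⟩ : ∃ y, ¬U (s + 1) y := by
    by_contra hcon
    push Not at hcon
    have h1 := hU.step s Finset.univ fun x _ => ⟨hprev x, hcon x⟩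
    rw [Finset.card_univ] at h1
    have h2 := card_nd h
    omega
  obtain ⟨u, v, huv, hu, hv⟩ := exists_edge h (U (s + 1)) x y hx hy
  exact ⟨s + 1, (u, v), huv, hu, hv⟩

/-- **The tree lemma.** At some time of the process there are many disjoint edges which leave the
current set. -/
theorem Process.exists_crossing {b h₀ : ℕ} (hb : b < 3 ^ h₀) : ∀ h, h₀ ≤ h →
    ∀ (U : ℕ → Nd h → Prop), Process b U →
    ∃ (t : ℕ) (l : List (Nd h × Nd h)), l.length + h₀ = h + 1 ∧ Crossing (U t) l := by
  intro h hh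
  induction h, hh using Nat.le_induction with
  | base =>
    intro U hU
    obtain ⟨t, e, h1, h2, h3⟩ := hU.exists_one hb
    refine ⟨t, [e], by rw [List.length_singleton, add_comm], ?_, by simp, by simp⟩
    intro e' he
    rw [List.mem_singleton] at he
    subst he
    exact ⟨h1, h2, h3⟩
  | succ h hh ih =>
    intro U hU
    choose t l hl hc using fun i => ih _ (hU.sub i)
    obtain ⟨i, j, k, hik, hjk, h1, h2⟩ := sort3 t
    -- a node of the subtree `i` in the set
    obtain ⟨a, ha⟩ : ∃ a : Nd h, U (t k) (CF.sub i a) := by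
      obtain ⟨e, he⟩ := List.exists_mem_of_length_pos (l := l i) (by have := hl i; omega)
      exact ⟨e.1, hU.mono' h1 ((hc i).1 e he).2.1⟩
    obtain ⟨b, hb⟩ : ∃ b : Nd h, ¬U (t k) (CF.sub j b) := by
      obtain ⟨e, he⟩ := List.exists_mem_of_length_pos (l := l j) (by have := hl j; omega)
      exact ⟨e.2, fun hcon => ((hc j).1 e he).2.2 (hU.mono' h2 hcon)⟩
    obtain ⟨x, y, hxy, hx, hy, hxn, hyn⟩ := exists_edge_avoid (U (t k)) hik hjk ha hb
    refine ⟨t k, (x, y) :: (l k).map (fun e => (CF.sub k e.1, CF.sub k e.2)), ?_, ?_, ?_, ?_⟩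
    · have := hl k
      rw [List.length_cons, List.length_map]
      omega
    · intro e he
      rw [List.mem_cons] at he
      rcases he with rfl | he
      · exact ⟨hxy, hx, hy⟩
      · rw [List.mem_map] at he
        obtain ⟨e', he', rfl⟩ := he
        obtain ⟨q1, q2, q3⟩ := (hc k).1 e' he'
        exact ⟨q1.sub k, q2, q3⟩
    · rw [List.map_cons, List.map_map, List.nodup_cons]
      constructor
      · intro hmem
        rw [List.mem_map] at hmem
        obtain ⟨e', -, he'⟩ := hmem
        exact hxn _ he'.symm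
      · have := (hc k).2.1
        have h3 : (l k).map (Prod.fst ∘ fun e => (CF.sub k e.1, CF.sub k e.2)) =
            ((l k).map Prod.fst).map (CF.sub k) := by
          rw [List.map_map]
          rfl
        rw [h3]
        exact this.map fun u v huv => (sub_inj.1 huv).2
    · rw [List.map_cons, List.map_map, List.nodup_cons]
      constructor
      · intro hmem
        rw [List.mem_map] at hmem
        obtain ⟨e', -, he'⟩ := hmem
        exact hyn _ he'.symm
      · have := (hc k).2.2
        have h3 : (l k).map (Prod.snd ∘ fun e => (CF.sub k e.1, CF.sub k e.2)) =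
            ((l k).map Prod.snd).map (CF.sub k) := by
          rw [List.map_map]
          rfl
        rw [h3]
        exact this.map fun u v huv => (sub_inj.1 huv).2

/-- The parent of a node. -/
def par : (h : ℕ) → Nd h → Nd h
  | 0, x => x
  | _ + 1, none => none
  | h + 1, some (i, x) => if x = rt h then none else some (i, par h x)

/-- The children of a node. -/
def chd : (h : ℕ) → Nd h → Fin 3 → Nd h
  | 0, x, _ => x
  | h + 1, none, i => some (i, rt h)
  | h + 1, some (j, x), i => some (j, chd h x i)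

theorem Par.ne_rt {h : ℕ} {x y : Nd h} (e : Par h x y) : y ≠ rt h := by
  cases e <;> exact sub_ne_rt _ _

theorem Par.eq_par {h : ℕ} {x y : Nd h} (e : Par h x y) : x = par h y := by
  induction e with
  | root h i => exact (if_pos rfl).symm
  | @sub h i x y e ih =>
    have h1 : par (h + 1) (CF.sub i y) = if y = rt h then none else some (i, par h y) := rfl
    rw [h1, if_neg e.ne_rt, ← ih]
    rfl

theorem Par.eq_chd {h : ℕ} {x y : Nd h} (e : Par h x y) : ∃ i, y = chd h x i := by
  induction e with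
  | root h i => exact ⟨i, rfl⟩
  | @sub h i x y e ih =>
    obtain ⟨j, hj⟩ := ih
    exact ⟨j, by rw [hj]; rfl⟩

/-- Every node has at most four neighbours. -/
theorem Adj.mem_nbr {h : ℕ} {x y : Nd h} (e : Adj h x y) :
    ∃ i : Fin 4, y = (Fin.cons (par h x) (chd h x) : Fin 4 → Nd h) i := by
  rcases e with e | e
  · obtain ⟨i, hi⟩ := e.eq_chd
    exact ⟨i.succ, by rw [Fin.cons_succ]; exact hi⟩
  · exact ⟨0, by rw [Fin.cons_zero]; exact e.eq_par⟩

theorem Par.irrefl {h : ℕ} {x y : Nd h} (e : Par h x y) : x ≠ y := by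
  induction e with
  | root h i => exact (sub_ne_rt _ _).symm
  | @sub h i x y e ih => exact fun h1 => ih (sub_inj.1 h1).2

end Pool.Agent.H561R2.CF
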