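import Pool.Agent.H561R2.CF.Machine

/-!
# The words
-/

namespace Pool.Agent.H561R2.CF

/-- Popping a word. -/
def pops (l : List Bool) : List Lt := l.map .pop

/-- Pushing a word. -/
def pushes (l : List Bool) : List Lt := l.reverse.map .push

theorem run_push_map : ∀ (l σ : List Bool),
    mach.run (.act, σ) (l.map .push) = some (.act, l.reverse ++ σ) := by
  intro l
  induction l with
  | nil => intro σ; rfl
  | cons b l ih =>
    intro σ
    rw [List.map_cons, run_cons, next_act_push, Option.bind_some, ih, List.reverse_cons,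
      List.append_assoc]
    rfl

theorem run_pushes (l σ : List Bool) :
    mach.run (.act, σ) (pushes l) = some (.act, l ++ σ) := by
  unfold pushes
  rw [run_push_map, List.reverse_reverse]

theorem run_pops : ∀ (l σ : List Bool) (c : St × List Bool),
    mach.run (.act, σ) (pops l) = some c ↔ ∃ σ', σ = l ++ σ' ∧ c = (.act, σ') := by
  intro l
  induction l with
  | nil =>
    intro σ c
    show some (St.act, σ) = some c ↔ _
    constructor
    · intro h
      exact ⟨σ, rfl, (Option.some.inj h).symm⟩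
    · rintro ⟨σ', h1, h2⟩
      rw [h2, h1]
      rfl
  | cons b l ih =>
    intro σ c
    show ((mach.next (.act, σ) (.pop b)).bind fun c' => mach.run c' (pops l)) = some c ↔ _
    rw [Option.bind_eq_some_iff]
    constructor
    · rintro ⟨c', h1, h2⟩
      obtain ⟨σ', rfl, rfl⟩ := (next_act_pop σ b).1 h1
      obtain ⟨σ'', rfl, rfl⟩ := (ih _ _).1 h2
      exact ⟨σ'', rfl, rfl⟩
    · rintro ⟨σ', rfl, rfl⟩
      exact ⟨_, (next_act_pop _ b).2 ⟨l ++ σ', rfl, rfl⟩, (ih _ _).2 ⟨σ', rfl, rfl⟩⟩

variable {l : ℕ}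

/-- The encoding of a vector. -/
def enc (a : Vec l) : List Bool := List.ofFn fun i => decide (a i = 1)

theorem enc_length (a : Vec l) : (enc a).length = l := List.length_ofFn

theorem enc_inj {a b : Vec l} (h : enc a = enc b) : a = b := by
  have h1 := List.ofFn_injective h
  funext i
  have h2 := congrFun h1 i
  simp only [decide_eq_decide] at h2
  have h3 : ∀ x y : ZMod 2, (x = 1 ↔ y = 1) → x = y := by decide
  exact h3 _ _ h2

theorem enc_append_inj {a b : Vec l} {σ τ : List Bool} (h : enc a ++ σ = enc b ++ τ) :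
    a = b ∧ σ = τ := by
  obtain ⟨h1, h2⟩ := List.append_inj h (by rw [enc_length, enc_length])
  exact ⟨enc_inj h1, h2⟩

/-- The rows of the blocks. -/
abbrev Row (l : ℕ) : Type := Vec l × Vec l

/-- The text of a row of a leaf. -/
def leafText (r : Row l) : List Lt :=
  if r.1 ⬝ᵥ r.2 = 0 then pops (enc r.1) else [.opn]

/-- The text of a row of an inner node. -/
def nodeText (r : Row l) : List Lt :=
  if r.1 ⬝ᵥ r.2 = 0 then
    pops (enc r.1) ++ (pushes (enc r.2) ++ (pushes (enc r.2) ++ pushes (enc r.2)))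
  else [.opn]

theorem plain_append {s t : List Lt} (hs : Plain s) (ht : Plain t) : Plain (s ++ t) := by
  intro a ha
  rcases List.mem_append.1 ha with h | h
  · exact hs a h
  · exact ht a h

theorem plain_pops (s : List Bool) : Plain (pops s) := by
  intro a ha
  obtain ⟨b, -, rfl⟩ := List.mem_map.1 ha
  simp

theorem plain_pushes (s : List Bool) : Plain (pushes s) := by
  intro a ha
  obtain ⟨b, -, rfl⟩ := List.mem_map.1 ha
  simp

theorem plain_opn : Plain [Lt.opn] := by
  intro a ha
  rw [List.mem_singleton] at ha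
  subst ha
  simp

theorem plain_leaf (r : Row l) : Plain (leafText r) := by
  unfold leafText
  split_ifs
  · exact plain_pops _
  · exact plain_opn

theorem plain_node (r : Row l) : Plain (nodeText r) := by
  unfold nodeText
  split_ifs
  · exact plain_append (plain_pops _) (plain_append (plain_pushes _)
      (plain_append (plain_pushes _) (plain_pushes _)))
  · exact plain_opn

theorem run_opn (σ : List Bool) : mach.run (.act, σ) [.opn] = none := by
  rw [run_cons, next_act_opn]
  rfl

theorem run_leafText (r : Row l) (σ σ' : List Bool) :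
    mach.run (.act, σ) (leafText r) = some (.act, σ') ↔
      r.1 ⬝ᵥ r.2 = 0 ∧ σ = enc r.1 ++ σ' := by
  unfold leafText
  split_ifs with h
  · rw [run_pops]
    constructor
    · rintro ⟨ρ, h1, h2⟩
      simp only [Prod.mk.injEq, true_and] at h2
      subst h2
      exact ⟨h, h1⟩
    · rintro ⟨-, h1⟩
      exact ⟨σ', h1, rfl⟩
  · rw [run_opn]
    simp [h]

theorem run_nodeText (r : Row l) (σ σ' : List Bool) :
    mach.run (.act, σ) (nodeText r) = some (.act, σ') ↔
      r.1 ⬝ᵥ r.2 = 0 ∧ ∃ ρ, σ = enc r.1 ++ ρ ∧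
        σ' = enc r.2 ++ (enc r.2 ++ (enc r.2 ++ ρ)) := by
  unfold nodeText
  split_ifs with h
  · rw [run_append, Option.bind_eq_some_iff]
    constructor
    · rintro ⟨c, h1, h2⟩
      obtain ⟨ρ, h3, rfl⟩ := (run_pops _ _ _).1 h1
      rw [run_append, run_pushes, Option.bind_some, run_append, run_pushes, Option.bind_some,
        run_pushes] at h2
      have h4 := Option.some.inj h2
      simp only [Prod.mk.injEq, true_and] at h4
      exact ⟨h, ρ, h3, h4.symm⟩
    · rintro ⟨-, ρ, h1, h2⟩
      refine ⟨(.act, ρ), (run_pops _ _ _).2 ⟨ρ, h1, rfl⟩, ?_⟩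
      rw [run_append, run_pushes, Option.bind_some, run_append, run_pushes, Option.bind_some,
        run_pushes, h2]
  · rw [run_opn]
    simp [h]

/-- All rows. -/
noncomputable def allRows (l : ℕ) : List (Row l) := Finset.univ.toList

theorem mem_allRows (r : Row l) : r ∈ allRows l := by
  unfold allRows
  rw [Finset.mem_toList]
  exact Finset.mem_univ _

theorem nodup_allRows : (allRows l).Nodup := Finset.nodup_toList _

theorem length_allRows : (allRows l).length = 2 ^ l * 2 ^ l := by
  unfold allRows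
  rw [Finset.length_toList, Finset.card_univ]
  simp [Row, Vec, ZMod.card]

/-- A block with given flags. -/
noncomputable def block (text : Row l → List Lt) (f : Row l → Bool) : List Lt :=
  .opn :: (rows f text (allRows l) ++ [.cls])

theorem run_block {text : Row l → List Lt} (ht : ∀ r, Plain (text r)) (f : Row l → Bool)
    (σ : List Bool) (c : St × List Bool) :
    mach.run (ost σ, σ) (block text f) = some c ↔
      ∃ r, (∀ r', f r' = decide (r' = r)) ∧
        ∃ σ', mach.run (.act, σ) (text r) = some (.act, σ') ∧ c = (ost σ', σ') := by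
  unfold block
  rw [run_cons, next_opn, Option.bind_some, run_look_rows ht _ _ _ nodup_allRows]
  constructor
  · rintro ⟨r, -, h1, h2, h3⟩
    refine ⟨r, fun r' => ?_, h3⟩
    cases hf : f r' with
    | true => simp [h2 r' (mem_allRows _) hf]
    | false =>
      symm
      rw [decide_eq_false_iff_not]
      rintro rfl
      rw [h1] at hf
      exact absurd hf (by simp)
  · rintro ⟨r, h1, h3⟩
    refine ⟨r, mem_allRows _, by rw [h1]; simp, fun r' _ hr' => ?_, h3⟩
    rw [h1] at hr'
    simpa using hr'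

/-- The word of a labelling with flags. -/
noncomputable def word : (h : ℕ) → (Nd h → Row l → Bool) → List Lt
  | 0, f => block leafText (f (rt 0))
  | h + 1, f => block nodeText (f (rt (h + 1))) ++ (word h (fun u => f (sub 0 u)) ++
      (word h (fun u => f (sub 1 u)) ++ word h (fun u => f (sub 2 u))))

/-- The flags represent the labelling `z`; the parent of the root has the label `a`. -/
def Rep : (h : ℕ) → (Nd h → Row l → Bool) → Vec l → (Nd h → Vec l) → Prop
  | 0, f, a, z => a ⬝ᵥ z (rt 0) = 0 ∧ ∀ r, f (rt 0) r = decide (r = (a, z (rt 0)))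
  | h + 1, f, a, z => (a ⬝ᵥ z (rt (h + 1)) = 0 ∧
      ∀ r, f (rt (h + 1)) r = decide (r = (a, z (rt (h + 1))))) ∧
      ∀ i, Rep h (fun u => f (sub i u)) (z (rt (h + 1))) (fun u => z (sub i u))

/-- Labellings of the subtrees. -/
def glue {h : ℕ} (b : Vec l) (zs : Fin 3 → Nd h → Vec l) : Nd (h + 1) → Vec l
  | none => b
  | some (i, u) => zs i u

theorem run_word : ∀ (h : ℕ) (f : Nd h → Row l → Bool) (σ : List Bool) (c : St × List Bool),
    mach.run (ost σ, σ) (word h f) = some c ↔
      ∃ a z σ', Rep h f a z ∧ σ = enc a ++ σ' ∧ c = (ost σ', σ') := by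
  intro h
  induction h with
  | zero =>
    intro f σ c
    show mach.run (ost σ, σ) (block leafText (f (rt 0))) = some c ↔ _
    rw [run_block plain_leaf]
    constructor
    · rintro ⟨⟨a, b⟩, h1, σ', h2, h3⟩
      rw [run_leafText] at h2
      exact ⟨a, fun _ => b, σ', ⟨h2.1, h1⟩, h2.2, h3⟩
    · rintro ⟨a, z, σ', ⟨h1, h2⟩, h3, h4⟩
      exact ⟨(a, z (rt 0)), h2, σ', (run_leafText _ _ _).2 ⟨h1, h3⟩, h4⟩
  | succ h ih =>
    intro f σ c
    show mach.run (ost σ, σ) (block nodeText (f (rt (h + 1))) ++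
      (word h (fun u => f (sub 0 u)) ++
      (word h (fun u => f (sub 1 u)) ++ word h (fun u => f (sub 2 u))))) = some c ↔ _
    rw [run_append, Option.bind_eq_some_iff]
    constructor
    · rintro ⟨c1, h1, h2⟩
      rw [run_block plain_node] at h1
      obtain ⟨⟨a, b⟩, h3, σ1, h4, rfl⟩ := h1
      rw [run_nodeText] at h4
      obtain ⟨h5, ρ, h6, rfl⟩ := h4
      simp only at h5 h6 h2
      rw [run_append, Option.bind_eq_some_iff] at h2
      obtain ⟨c2, h7, h8⟩ := h2
      rw [ih] at h7
      obtain ⟨a0, z0, σ2, h9, h10, rfl⟩ := h7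
      obtain ⟨rfl, rfl⟩ := enc_append_inj h10
      rw [run_append, Option.bind_eq_some_iff] at h8
      obtain ⟨c3, h11, h12⟩ := h8
      rw [ih] at h11
      obtain ⟨a1, z1, σ3, h13, h14, rfl⟩ := h11
      obtain ⟨rfl, rfl⟩ := enc_append_inj h14
      rw [ih] at h12
      obtain ⟨a2, z2, σ4, h15, h16, rfl⟩ := h12
      obtain ⟨rfl, rfl⟩ := enc_append_inj h16
      refine ⟨a, glue b ![z0, z1, z2], ρ, ⟨⟨h5, h3⟩, fun i => ?_⟩, h6, rfl⟩
      fin_cases i
      · exact h9
      · exact h13
      · exact h15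
    · rintro ⟨a, z, σ', ⟨⟨h1, h2⟩, h3⟩, rfl, rfl⟩
      refine ⟨_, (run_block plain_node _ _ _).2 ⟨(a, z (rt (h + 1))), h2, _,
        (run_nodeText _ _ _).2 ⟨h1, σ', rfl, rfl⟩, rfl⟩, ?_⟩
      rw [run_append, Option.bind_eq_some_iff]
      refine ⟨_, (ih _ _ _).2 ⟨_, _, _, h3 0, rfl, rfl⟩, ?_⟩
      rw [run_append, Option.bind_eq_some_iff]
      refine ⟨_, (ih _ _ _).2 ⟨_, _, _, h3 1, rfl, rfl⟩, ?_⟩
      exact (ih _ _ _).2 ⟨_, _, _, h3 2, rfl, rfl⟩

/-- The label of the parent. -/
def pv (h : ℕ) (a : Vec l) (z : Nd h → Vec l) (u : Nd h) : Vec l :=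
  if u = rt h then a else z (par h u)

theorem pv_sub {h : ℕ} (a : Vec l) (z : Nd (h + 1) → Vec l) (i : Fin 3) (u : Nd h) :
    pv (h + 1) a z (sub i u) = pv h (z (rt (h + 1))) (fun u => z (sub i u)) u := by
  unfold pv
  rw [if_neg (sub_ne_rt i u)]
  have h1 : par (h + 1) (sub i u) = if u = rt h then none else some (i, par h u) := rfl
  rw [h1]
  split_ifs with h2
  · rfl
  · rfl

theorem pv_rt {h : ℕ} (a : Vec l) (z : Nd h → Vec l) : pv h a z (rt h) = a := if_pos rfl

theorem good_succ {h : ℕ} {z : Nd (h + 1) → Vec l} :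
    Good z ↔ ∀ i, z (rt (h + 1)) ⬝ᵥ z (sub i (rt h)) = 0 ∧ Good fun u => z (sub i u) := by
  constructor
  · intro hz i
    exact ⟨hz _ _ (.root h i), fun p c hpc => hz _ _ (.sub i hpc)⟩
  · intro hz p c hpc
    cases hpc with
    | root h i => exact (hz i).1
    | sub i hpc => exact (hz i).2 _ _ hpc

theorem rep_iff : ∀ (h : ℕ) (f : Nd h → Row l → Bool) (a : Vec l) (z : Nd h → Vec l),
    Rep h f a z ↔ a ⬝ᵥ z (rt h) = 0 ∧ Good z ∧ ∀ u r, f u r = decide (r = (pv h a z u, z u)) := by
  intro h
  induction h with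
  | zero =>
    intro f a z
    constructor
    · rintro ⟨h1, h2⟩
      refine ⟨h1, ?_, fun u r => ?_⟩
      · intro p c hpc
        exact nomatch hpc
      have : u = rt 0 := rfl
      subst this
      rw [pv_rt]
      exact h2 r
    · rintro ⟨h1, -, h3⟩
      refine ⟨h1, fun r => ?_⟩
      rw [h3, pv_rt]
  | succ h ih =>
    intro f a z
    constructor
    · rintro ⟨⟨h1, h2⟩, h3⟩
      have h4 := fun i => (ih _ _ _).1 (h3 i)
      refine ⟨h1, good_succ.2 fun i => ⟨(h4 i).1, (h4 i).2.1⟩, fun u r => ?_⟩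
      rcases Nd.cases' u with rfl | ⟨i, v, rfl⟩
      · rw [pv_rt]
        exact h2 r
      · rw [pv_sub]
        exact (h4 i).2.2 v r
    · rintro ⟨h1, h2, h3⟩
      refine ⟨⟨h1, fun r => ?_⟩, fun i => (ih _ _ _).2 ⟨(good_succ.1 h2 i).1,
        (good_succ.1 h2 i).2, fun u r => ?_⟩⟩
      · rw [h3, pv_rt]
      · rw [← pv_sub]
        exact h3 _ _

end Pool.Agent.H561R2.CF
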